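import Pool.Agent.Lib.MP_688fd0_co.SQ7.H25.Word

/-!
Type C2, B1-FULL, row ASSIGN (helper17), the case `N ≠ 1`.

`F` = the families of one coset (a class of visits together with its kind), `y p` = the class, `w p` = the twist (`1` for plain
families). `assign` chooses the turn `g` (a generator of `N`), the columns `a p` and the lengths `r p` such that the rails
`rail p b * g ^ i`, `i < l`, are pairwise different and every level of the right residue fits one of the `l` laps.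
-/

set_option autoImplicit false

namespace Pool.Agent.Lib.MP_688fd0_co.SQ7.H17

open Pool.Agent.Lib.MP_688fd0_co.SQ7.H25

open scoped Classical in
/-- Greedy choice of numbers `j p ≤ J` without bad pairs. -/
theorem greedy {F : Type*} [Fintype F] (J m : ℕ) (bad : F → F → ℕ → ℕ → Prop)
    (symm : ∀ p p' j j', bad p p' j j' → bad p' p j' j)
    (cnt : ∀ p p' j', p ≠ p' → ∀ S : Finset ℕ, (∀ j ∈ S, j ≤ J ∧ bad p p' j j') → S.card ≤ m)
    (hm : Fintype.card F * m ≤ J) :
    ∃ j : F → ℕ, (∀ p, j p ≤ J) ∧ ∀ p p', p ≠ p' → ¬ bad p p' (j p) (j p') := by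
  suffices h : ∀ s : Finset F, ∃ j : F → ℕ, (∀ p, j p ≤ J) ∧ ∀ p ∈ s, ∀ p' ∈ s, p ≠ p' → ¬ bad p p' (j p) (j p') by
    obtain ⟨j, h1, h2⟩ := h Finset.univ
    exact ⟨j, h1, fun p p' => h2 p (Finset.mem_univ _) p' (Finset.mem_univ _)⟩
  intro s
  induction s using Finset.induction_on with
  | empty => exact ⟨fun _ => 0, fun _ => Nat.zero_le _, fun p hp => absurd hp (Finset.notMem_empty _)⟩
  | insert p0 s hp0 ih =>
    obtain ⟨j, h1, h2⟩ := ih
    have hex : ∃ c ∈ Finset.range (J + 1), ∀ p' ∈ s, ¬ bad p0 p' c (j p') := by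
      by_contra hcon
      push Not at hcon
      have hsub : Finset.range (J + 1) ⊆
          s.biUnion fun p' => (Finset.range (J + 1)).filter fun c => bad p0 p' c (j p') := by
        intro c hc
        obtain ⟨p', hp', hb⟩ := hcon c hc
        exact Finset.mem_biUnion.2 ⟨p', hp', Finset.mem_filter.2 ⟨hc, hb⟩⟩
      have hc1 := Finset.card_le_card hsub
      have hc2 : (s.biUnion fun p' => (Finset.range (J + 1)).filter fun c => bad p0 p' c (j p')).card ≤ s.card * m := by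
        refine Finset.card_biUnion_le_card_mul _ _ _ fun p' hp' => cnt p0 p' (j p') (fun h => hp0 (h ▸ hp')) _ ?_
        intro c hc
        rw [Finset.mem_filter, Finset.mem_range] at hc
        exact ⟨by omega, hc.2⟩
      have hc3 : s.card * m ≤ Fintype.card F * m := Nat.mul_le_mul_right m (Finset.card_le_univ s)
      rw [Finset.card_range] at hc1
      omega
    obtain ⟨c, hc, hcb⟩ := hex
    rw [Finset.mem_range] at hc
    refine ⟨Function.update j p0 c, ?_, ?_⟩
    · intro p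
      rcases eq_or_ne p p0 with rfl | hp
      · rw [Function.update_self]; omega
      · rw [Function.update_of_ne hp]; exact h1 p
    · intro p hp p' hp' hne
      rw [Finset.mem_insert] at hp hp'
      rcases eq_or_ne p p0 with rfl | hpp
      · have h3 : p' ≠ p := hne.symm
        have h4 : p' ∈ s := hp'.resolve_left h3
        rw [Function.update_self, Function.update_of_ne h3]
        exact hcb p' h4
      · have h4 : p ∈ s := hp.resolve_left hpp
        rw [Function.update_of_ne hpp]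
        rcases eq_or_ne p' p0 with rfl | hpp'
        · rw [Function.update_self]
          exact fun hb => hcb p h4 (symm _ _ _ _ hb)
        · rw [Function.update_of_ne hpp']
          exact h2 p h4 p' (hp'.resolve_left hpp') hne

variable {Λ Y F : Type*} [Group Y]

section shp

variable {q : Λ → Y} {l1 D B : ℕ} {f : Y} {n : ℤ}

theorem sh_pow (h : Sh q l1 B f n) (k : ℕ) : Sh q l1 (k * B) (f ^ k) (k * n) := by
  induction k with
  | zero => simpa using Sh.one (q := q) (l1 := l1)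
  | succ k ih =>
    rw [pow_succ]
    have h1 := ih.mul h
    refine (h1.mono (le_of_eq (by ring))).congr ?_
    push_cast
    have : ((k : ℤ) + 1) * n - (k * n + n) = 0 := by ring
    rw [this]; exact dvd_zero _

theorem sh_letter_pow (s : Λ) (k : ℕ) : Sh q l1 k (q s ^ k) k := by
  have := sh_pow (Sh.letter (q := q) (l1 := l1) s) k
  rwa [mul_one, mul_one] at this

end shp

/-- The start of the rail `b` of the family `p`. -/
noncomputable def rail (g : Y) (l : ℕ) (a w : F → Y) (p : F) (b : Bool) : Y :=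
  open scoped Classical in if b then (if w p = 1 then a p * g ^ l else w p * a p) else a p

/-- The output of ASSIGN. -/
structure Asg (q : Λ → Y) (s0 : Λ) (l1 L' l B : ℕ) (N V : Subgroup Y) (y w : F → Y) (g : Y) (a : F → Y)
    (r : F → ℤ) : Prop where
  gen : Subgroup.zpowers g = N
  shg : Sh q l1 B g L'
  mem : ∀ p, a p ∈ V
  sha : ∀ p, Sh q l1 B ((a p)⁻¹ * y p) (r p)
  lap : ∀ p (n : ℤ), y p * (q s0 ^ n)⁻¹ ∈ V → ∃ i < l, (l1 : ℤ) ∣ r p - i * L' - n
  dvd : l1 ∣ l * L'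
  inj : ∀ p p' b b' i i', i < l → i' < l → rail g l a w p b * g ^ i = rail g l a w p' b' * g ^ i' →
    p = p' ∧ b = b' ∧ i = i'
  ord : ∀ i, 0 < i → i < 2 * l → g ^ i ≠ 1
  cov : ∀ p, y p ∈ V → ∃ j : ℕ, a p = y p * g ^ j

/-- All powers up to the order are different. -/
theorem pow_inj_le {g : Y} {P i j : ℕ} (hg : P < orderOf g) (hi : i ≤ P) (hj : j ≤ P) (h : g ^ i = g ^ j) : i = j := by
  rw [pow_eq_pow_iff_modEq] at h
  exact h.eq_of_lt_of_lt (by omega) (by omega)

/-- A product of small numbers is no multiple of a number all of whose primes are large. -/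
theorem no_dvd {c P x y z : ℕ} (hc : 1 < c) (hP : ∀ p, p.Prime → p ∣ c → P < p) (hx : 0 < x) (hy : 0 < y) (hz : 0 < z)
    (hx' : x ≤ P) (hy' : y ≤ P) (hz' : z ≤ P) : ¬ c ∣ x * y * z := by
  intro h
  obtain ⟨p, hp, hpc⟩ := Nat.exists_prime_and_dvd (n := c) (by omega)
  have h1 := hP p hp hpc
  rcases (Nat.Prime.dvd_mul hp).1 (hpc.trans h) with h2 | h2
  · rcases (Nat.Prime.dvd_mul hp).1 h2 with h3 | h3
    · have := Nat.le_of_dvd hx h3; omega
    · have := Nat.le_of_dvd hy h3; omega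
  · have := Nat.le_of_dvd hz h2; omega

open scoped Classical in
/-- The choice of the turn: a generator which avoids the twists. -/
theorem exists_turn [Fintype F] {g0 : Y} {l1 l P : ℕ} (h1 : 1 < orderOf g0)
    (hP : ∀ p, p.Prime → p ∣ orderOf g0 → P < p) (hl1 : 0 < l1) (hPl1 : l1 ≤ P) (hPl : l ≤ P)
    (hPX : 2 * l * Fintype.card F ≤ P) (e : F → Y) :
    ∃ x, x ≤ 2 * l * Fintype.card F ∧
      ∀ p i, 0 < i → i < l → (g0 ^ (1 + l1 * x)) ^ i ≠ e p ∧ (g0 ^ (1 + l1 * x)) ^ i ≠ (e p)⁻¹ := by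
  by_contra hcon
  push Not at hcon
  have hex : ∀ x : Fin (2 * l * Fintype.card F + 1), ∃ t : F × Fin l × Bool, 0 < (t.2.1 : ℕ) ∧
      (g0 ^ (1 + l1 * (x : ℕ))) ^ (t.2.1 : ℕ) = if t.2.2 then e t.1 else (e t.1)⁻¹ := by
    intro x
    obtain ⟨p, i, hi0, hil, h⟩ := hcon x (by omega)
    by_cases h2 : (g0 ^ (1 + l1 * (x : ℕ))) ^ i = e p
    · exact ⟨(p, ⟨i, hil⟩, true), hi0, by simpa using h2⟩
    · exact ⟨(p, ⟨i, hil⟩, false), hi0, by simpa using h h2⟩
  choose t ht0 ht using hex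
  have hinj : Function.Injective t := by
    have key : ∀ x x' : Fin (2 * l * Fintype.card F + 1), (x : ℕ) < x' → t x ≠ t x' := by
      intro x x' hlt heq
      have h2 := ht x
      have h3 := ht x'
      rw [heq, ← h3, ← pow_mul, ← pow_mul, pow_eq_pow_iff_modEq] at h2
      have h4 : (1 + l1 * (x : ℕ)) * ((t x').2.1 : ℕ) ≤ (1 + l1 * (x' : ℕ)) * ((t x').2.1 : ℕ) :=
        Nat.mul_le_mul_right _ (by have := Nat.mul_le_mul_left l1 hlt.le; omega)
      have h5 := (Nat.modEq_iff_dvd' h4).1 h2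
      have h6 : (1 + l1 * (x' : ℕ)) * ((t x').2.1 : ℕ) - (1 + l1 * (x : ℕ)) * ((t x').2.1 : ℕ) =
          l1 * ((x' : ℕ) - x) * ((t x').2.1 : ℕ) := by
        rw [← Nat.sub_mul]
        congr 1
        have h7 : l1 * (x' : ℕ) = l1 * ((x' : ℕ) - x) + l1 * x := by rw [← Nat.mul_add]; congr 1; omega
        omega
      rw [h6] at h5
      have h8 := x'.isLt
      have h9 := (t x').2.1.isLt
      exact no_dvd h1 hP hl1 (by omega) (ht0 x') hPl1 (by omega) (by omega) h5
    intro x x' heq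
    by_contra hne
    rcases Nat.lt_or_gt_of_ne (fun h => hne (Fin.ext h)) with h | h
    · exact key x x' h heq
    · exact key x' x h heq.symm
  have hcard := Fintype.card_le_of_injective t hinj
  rw [Fintype.card_fin, Fintype.card_prod, Fintype.card_prod, Fintype.card_fin, Fintype.card_bool] at hcard
  have : Fintype.card F * (l * 2) = 2 * l * Fintype.card F := by ring
  omega

/-- The lap. -/
theorem exists_lap {δ l L : ℕ} (hl : 0 < l) (hL : L.Coprime l) {r n : ℤ} (h : (δ : ℤ) ∣ r - n) :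
    ∃ i < l, ((δ * l : ℕ) : ℤ) ∣ r - i * ((δ * L : ℕ) : ℤ) - n := by
  obtain ⟨e, he⟩ := h
  have h1 : IsCoprime (L : ℤ) (l : ℤ) := Nat.isCoprime_iff_coprime.2 hL
  obtain ⟨u, v, huv⟩ := h1
  have hl' : (0 : ℤ) < l := by exact_mod_cast hl
  refine ⟨((e * u) % l).toNat, ?_, ?_⟩
  · have := Int.emod_lt_of_pos (e * u) hl'
    have h2 := Int.emod_nonneg (e * u) hl'.ne'
    omega
  · have h2 := Int.emod_nonneg (e * u) hl'.ne'
    rw [Int.toNat_of_nonneg h2]
    have h3 : (l : ℤ) ∣ e - (e * u) % l * L := by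
      have h4 : (l : ℤ) ∣ e * u - (e * u) % l := Int.dvd_self_sub_emod
      obtain ⟨k, hk⟩ := h4
      refine ⟨e * v + k * L, ?_⟩
      have h5 : (e * u) % l = e * u - l * k := by linarith
      rw [h5]
      linear_combination (-e) * huv
    obtain ⟨k, hk⟩ := h3
    refine ⟨k, ?_⟩
    push_cast
    linear_combination he + δ * hk

open scoped Classical in
/-- A short generator which avoids given elements. -/
theorem exists_gen [Finite Y] {E : Type*} [Fintype E] {q : Λ → Y} {l1 l L' B0 : ℕ} (hl1 : 0 < l1) (hl : 0 < l)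
    {N : Subgroup Y} {g0 : Y} (hg0 : Sh q l1 B0 g0 (L' : ℤ)) (hN : Subgroup.zpowers g0 = N) (hN1 : N ≠ ⊥) (e : E → Y)
    (hP : ∀ p, p.Prime → p ∣ Nat.card N → 1 + l1 * (2 * l * Fintype.card E) + 2 * l < p) :
    ∃ g : Y, Subgroup.zpowers g = N ∧ Sh q l1 ((1 + l1 * (2 * l * Fintype.card E)) * B0) g (L' : ℤ) ∧
      ∀ p i, 0 < i → i < l → g ^ i ≠ e p ∧ g ^ i ≠ (e p)⁻¹ := by
  set nF := Fintype.card E with hnF
  set P := 1 + l1 * (2 * l * nF) + 2 * l with hPdef
  have hcard : Nat.card N = orderOf g0 := by rw [← hN, Nat.card_zpowers]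
  rw [hcard] at hP
  have hord1 : 1 < orderOf g0 := by
    have h1 : orderOf g0 ≠ 1 := by
      intro h
      rw [orderOf_eq_one_iff] at h
      exact hN1 (by rw [← hN, h, Subgroup.zpowers_one_eq_bot])
    have h2 : 0 < orderOf g0 := orderOf_pos g0
    omega
  have hP1 : l1 ≤ P ∨ nF = 0 := by
    rcases Nat.eq_zero_or_pos nF with h | h
    · exact Or.inr h
    · left
      have : l1 ≤ l1 * (2 * l * nF) := Nat.le_mul_of_pos_right _ (by positivity)
      omega
  have hX : 2 * l * nF ≤ P := by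
    have : 2 * l * nF ≤ l1 * (2 * l * nF) := Nat.le_mul_of_pos_left _ hl1
    omega
  obtain ⟨x, hx, hxe⟩ : ∃ x, x ≤ 2 * l * nF ∧ ∀ p i, 0 < i → i < l →
      (g0 ^ (1 + l1 * x)) ^ i ≠ e p ∧ (g0 ^ (1 + l1 * x)) ^ i ≠ (e p)⁻¹ := by
    rcases hP1 with h | h
    · exact exists_turn hord1 hP hl1 h (by omega) hX _
    · have : IsEmpty E := Fintype.card_eq_zero_iff.1 h
      exact ⟨0, Nat.zero_le _, fun p => isEmptyElim p⟩
  have hxP : 1 + l1 * x ≤ P := by
    have := Nat.mul_le_mul_left l1 hx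
    omega
  have hcop : (orderOf g0).Coprime (1 + l1 * x) := by
    refine Nat.coprime_of_dvd fun p hp h1 h2 => ?_
    have := hP p hp h1
    have := Nat.le_of_dvd (by omega) h2
    omega
  have hordg : orderOf (g0 ^ (1 + l1 * x)) = orderOf g0 := Nat.Coprime.orderOf_pow hcop
  refine ⟨g0 ^ (1 + l1 * x), ?_, ?_, hxe⟩
  · rw [← hN]
    refine Subgroup.eq_of_le_of_card_ge ?_ ?_
    · rw [Subgroup.zpowers_le]
      exact Subgroup.npow_mem_zpowers _ _
    · rw [Nat.card_zpowers, Nat.card_zpowers, hordg]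
  · have h1 := sh_pow hg0 (1 + l1 * x)
    refine (h1.mono ?_).congr ?_
    · refine Nat.mul_le_mul_right _ ?_
      have := Nat.mul_le_mul_left l1 hx
      omega
    · refine ⟨-(x * (L' : ℤ)), ?_⟩
      push_cast
      ring

open scoped Classical in
/-- Row ASSIGN for a given turn `g`. -/
theorem assign_core [Finite Y] [Fintype F] {nF : ℕ} (hnF : Fintype.card F ≤ nF) {q : Λ → Y} {s0 : Λ} {D δ l L B1 : ℕ}
    (H : Wd q (δ * l) D) (hl : 0 < l) (hL : L.Coprime l) {N V : Subgroup Y} (hNV : N ≤ V)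
    (hV : ∀ n : ℤ, q s0 ^ n ∈ V → (δ : ℤ) ∣ n) (y w : F → Y) (hy : ∀ p, ∃ n < δ, y p * (q s0 ^ n)⁻¹ ∈ V) {g : Y}
    (hB1g : Sh q (δ * l) B1 g ((δ * L : ℕ) : ℤ)) (hgen : Subgroup.zpowers g = N)
    (hgP : 4 * l ^ 2 * nF + 2 * l < orderOf g)
    (hxe' : ∀ p r, r < δ → y p * (q s0 ^ r)⁻¹ ∈ V → ∀ i, 0 < i → i < l →
      g ^ i ≠ (y p * (q s0 ^ r)⁻¹)⁻¹ * w p * (y p * (q s0 ^ r)⁻¹) ∧
      g ^ i ≠ ((y p * (q s0 ^ r)⁻¹)⁻¹ * w p * (y p * (q s0 ^ r)⁻¹))⁻¹) :
    ∃ (a : F → Y) (r : F → ℤ),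
      Asg q s0 (δ * l) (δ * L) l (B1 + (4 * l ^ 2 * nF * B1 * D + δ)) N V y w g a r := by
  set P := 4 * l ^ 2 * nF + 2 * l with hPdef
  set J := 4 * l ^ 2 * nF with hJ
  choose rr hrr hrV using hy
  obtain ⟨u, hu⟩ : ∃ u : F → Y, ∀ p, u p = y p * (q s0 ^ rr p)⁻¹ := ⟨_, fun _ => rfl⟩
  have huV : ∀ p, u p ∈ V := fun p => by rw [hu]; exact hrV p
  have hxe : ∀ p i, 0 < i → i < l → g ^ i ≠ (u p)⁻¹ * w p * u p ∧ g ^ i ≠ ((u p)⁻¹ * w p * u p)⁻¹ := by
    intro p i h1 h2
    rw [hu]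
    exact hxe' p (rr p) (hrr p) (hrV p) i h1 h2
  set bs : F → Bool → Y := fun p b => if b then (if w p = 1 then u p * g ^ l else w p * u p) else u p with hbs
  -- the columns
  obtain ⟨j, hj, hjb⟩ := greedy (F := F) J (4 * l ^ 2)
    (fun p p' c c' => ∃ (b b' : Bool) (i i' : ℕ), i < l ∧ i' < l ∧ bs p b * g ^ (c + i) = bs p' b' * g ^ (c' + i'))
    (fun p p' c c' ⟨b, b', i, i', hi, hi', h⟩ => ⟨b', b, i', i, hi', hi, h.symm⟩)
    (by
      intro p p' c' _ S hS
      have hex : ∀ c : S, ∃ t : Bool × Bool × Fin l × Fin l,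
          bs p t.1 * g ^ ((c : ℕ) + t.2.2.1) = bs p' t.2.1 * g ^ (c' + (t.2.2.2 : ℕ)) := by
        intro c
        obtain ⟨_, b, b', i, i', hi, hi', h⟩ := hS c c.2
        exact ⟨(b, b', ⟨i, hi⟩, ⟨i', hi'⟩), h⟩
      choose t ht using hex
      have hinj : Function.Injective t := by
        intro c1 c2 h
        have h1 := ht c1
        rw [h, ← ht c2, mul_left_cancel_iff] at h1
        have h2 : (c1 : ℕ) + (t c2).2.2.1 = (c2 : ℕ) + (t c2).2.2.1 := by
          have h3 := (hS c1 c1.2).1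
          have h4 := (hS c2 c2.2).1
          have h5 := (t c2).2.2.1.isLt
          exact pow_inj_le hgP (by omega) (by omega) h1
        exact Subtype.ext (by omega)
      have hc := Fintype.card_le_of_injective t hinj
      simp only [Fintype.card_coe, Fintype.card_prod, Fintype.card_fin, Fintype.card_bool] at hc
      have : 2 * (2 * (l * l)) = 4 * l ^ 2 := by ring
      omega)
    (by
      have := Nat.mul_le_mul_left (4 * l ^ 2) hnF
      rw [hJ, mul_comm]
      exact this)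
  have hcomm : ∀ i k : ℕ, g ^ i * g ^ k = g ^ (i + k) := fun i k => (pow_add g i k).symm
  have hrail : ∀ p b, rail g l (fun p => u p * g ^ j p) w p b = bs p b * g ^ j p := by
    intro p b
    cases b with
    | false => simp [rail, hbs]
    | true =>
      by_cases h : w p = 1
      · simp only [rail, hbs, if_true, h]
        rw [mul_assoc, mul_assoc, hcomm, hcomm, add_comm]
      · simp only [rail, hbs, if_true, h, if_false, mul_assoc]
  have hself : ∀ p i i', i < l → i' < l → bs p false * g ^ j p * g ^ i ≠ bs p true * g ^ j p * g ^ i' := by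
    intro p i i' hi hi' h
    by_cases hw1 : w p = 1
    · simp only [hbs, if_true, hw1, Bool.false_eq_true, if_false] at h
      rw [mul_assoc, mul_assoc, mul_assoc, mul_left_cancel_iff, hcomm, hcomm, hcomm] at h
      have h1 := hj p
      have h2 := pow_inj_le hgP (by omega) (by omega) h
      omega
    · simp only [hbs, if_true, hw1, Bool.false_eq_true, if_false] at h
      have h1 : (u p)⁻¹ * w p * u p * g ^ (j p + i') = g ^ (j p + i) := by
        rw [← hcomm, ← hcomm]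
        have : u p * (g ^ j p * g ^ i) = w p * u p * (g ^ j p * g ^ i') := by rw [← mul_assoc, ← mul_assoc]; exact h
        rw [mul_assoc (u p)⁻¹, mul_assoc (u p)⁻¹, ← this, inv_mul_cancel_left]
      have h2 : (u p)⁻¹ * w p * u p = g ^ (j p + i) * (g ^ (j p + i'))⁻¹ := eq_mul_inv_of_mul_eq h1
      rcases Nat.lt_trichotomy i i' with h3 | h3 | h3
      · have h4 : g ^ (j p + i') = g ^ (i' - i) * g ^ (j p + i) := by rw [hcomm]; congr 1; omega
        have h5 : g ^ (i' - i) = ((u p)⁻¹ * w p * u p)⁻¹ := by rw [h2, h4]; group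
        exact (hxe p (i' - i) (by omega) (by omega)).2 h5
      · rw [h3, mul_inv_cancel] at h2
        apply hw1
        have h5 : u p * ((u p)⁻¹ * w p * u p) * (u p)⁻¹ = u p * 1 * (u p)⁻¹ := by rw [h2]
        simpa [mul_assoc] using h5
      · have h4 : g ^ (j p + i) = g ^ (i - i') * g ^ (j p + i') := by rw [hcomm]; congr 1; omega
        have h5 : g ^ (i - i') = (u p)⁻¹ * w p * u p := by rw [h2, h4]; group
        exact (hxe p (i - i') (by omega) (by omega)).1 h5
  refine ⟨fun p => u p * g ^ j p, fun p => rr p - j p * ((δ * L : ℕ) : ℤ), ?_⟩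
  constructor
  · exact hgen
  · exact hB1g.mono (Nat.le_add_right _ _)
  · intro p
    exact V.mul_mem (huV p) (hNV (by rw [← hgen]; exact Subgroup.npow_mem_zpowers _ _))
  · intro p
    have h1 := ((sh_pow hB1g (j p)).inv H).mul (sh_letter_pow (q := q) (l1 := δ * l) s0 (rr p))
    have h2 : (u p * g ^ j p)⁻¹ * y p = (g ^ j p)⁻¹ * q s0 ^ rr p := by rw [hu, mul_inv_rev, mul_inv_rev, inv_inv, mul_assoc, mul_assoc, inv_mul_cancel, mul_one]
    show Sh q (δ * l) _ ((u p * g ^ j p)⁻¹ * y p) _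
    rw [h2]
    refine (h1.mono ?_).congr ?_
    · have h3 : j p * B1 * D ≤ J * B1 * D := Nat.mul_le_mul_right _ (Nat.mul_le_mul_right _ (hj p))
      have := hrr p
      omega
    · refine ⟨0, ?_⟩
      ring
  · intro p n hn
    refine exists_lap hl hL ?_
    have h1 : (δ : ℤ) ∣ n - rr p := by
      apply hV
      have h2 := V.mul_mem (V.inv_mem hn) (hrV p)
      have h3 : (y p * (q s0 ^ n)⁻¹)⁻¹ * (y p * (q s0 ^ rr p)⁻¹) = q s0 ^ (n - (rr p : ℤ)) := by
        rw [mul_inv_rev, inv_inv, mul_assoc, inv_mul_cancel_left, zpow_sub, zpow_natCast]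
      rwa [h3] at h2
    obtain ⟨k, hk⟩ := h1
    refine ⟨-k - j p * L, ?_⟩
    push_cast
    linear_combination -hk
  · exact ⟨L, by ring⟩
  · intro p p' b b' i i' hi hi' h
    rw [hrail, hrail] at h
    by_cases hpp : p = p'
    · subst hpp
      refine ⟨rfl, ?_⟩
      have key : b = b' := by
        cases b <;> cases b'
        · rfl
        · exact absurd h (hself p i i' hi hi')
        · exact absurd h.symm (hself p i' i hi' hi)
        · rfl
      refine ⟨key, ?_⟩
      rw [key, mul_assoc, mul_assoc, mul_left_cancel_iff, hcomm, hcomm] at h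
      have h1 := hj p
      have h2 := pow_inj_le hgP (by omega) (by omega) h
      omega
    · rw [mul_assoc, mul_assoc, hcomm, hcomm] at h
      exact absurd ⟨b, b', i, i', hi, hi', h⟩ (hjb p p' hpp)
  · intro i hi hi2 h
    have h1 := pow_inj_le (i := i) (j := 0) hgP (by omega) (by omega) (by rw [h, pow_zero])
    omega
  · intro p hp
    refine ⟨j p, ?_⟩
    have h1 : rr p = 0 := by
      have h2 : q s0 ^ ((rr p : ℕ) : ℤ) ∈ V := by
        have h3 := V.mul_mem (V.inv_mem (hrV p)) hp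
        have h4 : (y p * (q s0 ^ rr p)⁻¹)⁻¹ * y p = q s0 ^ ((rr p : ℕ) : ℤ) := by
          rw [mul_inv_rev, inv_inv, mul_assoc, inv_mul_cancel, mul_one, zpow_natCast]
        rwa [h4] at h3
      have h3 := hV _ h2
      have h4 : δ ∣ rr p := by exact_mod_cast h3
      rcases Nat.eq_zero_or_pos (rr p) with h5 | h5
      · exact h5
      · have := Nat.le_of_dvd h5 h4
        have := hrr p
        omega
    show u p * g ^ j p = y p * g ^ j p
    rw [hu, h1, pow_zero, inv_one, mul_one]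

open scoped Classical in
/-- Row ASSIGN for `N ≠ 1`. -/
theorem assign [Finite Y] [Fintype F] {q : Λ → Y} {s0 : Λ} {D δ l L B0 : ℕ} (H : Wd q (δ * l) D) (hδ : 0 < δ)
    (hl : 0 < l) (hL : L.Coprime l) {N V : Subgroup Y} (hNV : N ≤ V) (hV : ∀ n : ℤ, q s0 ^ n ∈ V → (δ : ℤ) ∣ n)
    (y w : F → Y) (hy : ∀ p, ∃ n < δ, y p * (q s0 ^ n)⁻¹ ∈ V) {g0 : Y}
    (hg0 : Sh q (δ * l) B0 g0 ((δ * L : ℕ) : ℤ)) (hN : Subgroup.zpowers g0 = N) (hN1 : N ≠ ⊥)
    (hP : ∀ p, p.Prime → p ∣ Nat.card N →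
      1 + δ * l * (2 * l * Fintype.card F) + 4 * l ^ 2 * Fintype.card F + 2 * l < p) :
    ∃ (g : Y) (a : F → Y) (r : F → ℤ),
      Asg q s0 (δ * l) (δ * L) l
        ((1 + δ * l * (2 * l * Fintype.card F)) * B0 +
          (4 * l ^ 2 * Fintype.card F * ((1 + δ * l * (2 * l * Fintype.card F)) * B0) * D + δ)) N V y w g a r := by
  have hy0 := hy
  choose rr hrr hrV using hy
  obtain ⟨g, hgen, hgs, hge⟩ := exists_gen (Nat.mul_pos hδ hl) hl hg0 hN hN1
    (fun p => (y p * (q s0 ^ rr p)⁻¹)⁻¹ * w p * (y p * (q s0 ^ rr p)⁻¹))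
    (fun p hp h => lt_of_le_of_lt (by omega) (hP p hp h))
  have hcard : Nat.card N = orderOf g := by rw [← hgen, Nat.card_zpowers]
  have hord1 : orderOf g ≠ 1 := by
    intro h
    rw [orderOf_eq_one_iff] at h
    exact hN1 (by rw [← hgen, h, Subgroup.zpowers_one_eq_bot])
  obtain ⟨p, hp, hpc⟩ := Nat.exists_prime_and_dvd hord1
  have hpl : p ≤ orderOf g := Nat.le_of_dvd (orderOf_pos g) hpc
  have hPp := hP p hp (by rw [hcard]; exact hpc)
  refine ⟨g, assign_core le_rfl H hl hL hNV hV y w hy0 hgs hgen (by omega) ?_⟩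
  intro p r hr hrv i hi hil
  have h1 : r = rr p := by
    have h2 : ∀ r r' : ℕ, y p * (q s0 ^ r)⁻¹ ∈ V → y p * (q s0 ^ r')⁻¹ ∈ V → (δ : ℤ) ∣ (r : ℤ) - r' := by
      intro r r' h h'
      apply hV
      have h3 := V.mul_mem (V.inv_mem h) h'
      have h4 : (y p * (q s0 ^ r)⁻¹)⁻¹ * (y p * (q s0 ^ r')⁻¹) = q s0 ^ ((r : ℤ) - (r' : ℤ)) := by
        rw [mul_inv_rev, inv_inv, mul_assoc, inv_mul_cancel_left, zpow_sub, zpow_natCast, zpow_natCast]
      rwa [h4] at h3
    have h3 := h2 _ _ hrv (hrV p)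
    have h4 := hrr p
    have h5 := Int.eq_zero_of_abs_lt_dvd h3 (by rw [abs_lt]; omega)
    omega
  rw [h1]
  exact hge p i hi hil

/-- All rails lie in `V`. -/
theorem Asg.rail_mem {q : Λ → Y} {s0 : Λ} {l1 L' l B : ℕ} {N V : Subgroup Y} {y w : F → Y} {g : Y} {a : F → Y}
    {r : F → ℤ} (h : Asg q s0 l1 L' l B N V y w g a r) (hNV : N ≤ V) (hw : ∀ p, w p ∈ V) (p : F) (b : Bool) (i : ℕ) :
    rail g l a w p b * g ^ i ∈ V := by
  classical
  have hg : g ∈ V := hNV (by rw [← h.gen]; exact Subgroup.mem_zpowers g)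
  refine V.mul_mem ?_ (V.pow_mem hg i)
  cases b with
  | false => simpa [rail] using h.mem p
  | true =>
    by_cases h1 : w p = 1
    · simpa [rail, h1] using V.mul_mem (h.mem p) (V.pow_mem hg l)
    · simpa [rail, h1] using V.mul_mem (hw p) (h.mem p)

/-- `Y / V` is cyclic, generated by any letter. -/
theorem quot_cyc {q : Λ → Y} (hgen : Subgroup.closure (Set.range q) = ⊤) (s0 : Λ) {V : Subgroup Y} [V.Normal]
    (hq : ∀ s, q s * (q s0)⁻¹ ∈ V) (x : Y ⧸ V) : x ∈ Subgroup.zpowers (QuotientGroup.mk (q s0) : Y ⧸ V) := by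
  have h1 : (⊤ : Subgroup Y).map (QuotientGroup.mk' V) ≤ Subgroup.zpowers (QuotientGroup.mk (q s0) : Y ⧸ V) := by
    rw [← hgen, MonoidHom.map_closure, Subgroup.closure_le]
    rintro _ ⟨_, ⟨s, rfl⟩, rfl⟩
    have h2 : (QuotientGroup.mk (q s) : Y ⧸ V) = QuotientGroup.mk (q s0) := by
      rw [← mul_inv_eq_one, ← QuotientGroup.mk_inv, ← QuotientGroup.mk_mul]
      exact (QuotientGroup.eq_one_iff _).2 (hq s)
    show (QuotientGroup.mk (q s) : Y ⧸ V) ∈ _
    rw [h2]
    exact Subgroup.mem_zpowers _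
  obtain ⟨y, rfl⟩ := QuotientGroup.mk_surjective x
  exact h1 ⟨y, Subgroup.mem_top y, rfl⟩

theorem quot_ord [Finite Y] {q : Λ → Y} (hgen : Subgroup.closure (Set.range q) = ⊤) (s0 : Λ) {V : Subgroup Y}
    [V.Normal] (hq : ∀ s, q s * (q s0)⁻¹ ∈ V) : orderOf (QuotientGroup.mk (q s0) : Y ⧸ V) = V.index := by
  rw [orderOf_eq_card_of_forall_mem_zpowers (quot_cyc hgen s0 hq)]
  rfl

/-- The hypotheses `hV`, `hy` of `assign` for `δ = V.index`. -/
theorem lev_index [Finite Y] {q : Λ → Y} (hgen : Subgroup.closure (Set.range q) = ⊤) (s0 : Λ) {V : Subgroup Y}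
    [V.Normal] (hq : ∀ s, q s * (q s0)⁻¹ ∈ V) (n : ℤ) (hn : q s0 ^ n ∈ V) : (V.index : ℤ) ∣ n := by
  rw [← quot_ord hgen s0 hq, orderOf_dvd_iff_zpow_eq_one, ← QuotientGroup.mk_zpow]
  exact (QuotientGroup.eq_one_iff _).2 hn

theorem lev_exists [Finite Y] {q : Λ → Y} (hgen : Subgroup.closure (Set.range q) = ⊤) (s0 : Λ) {V : Subgroup Y}
    [V.Normal] (hq : ∀ s, q s * (q s0)⁻¹ ∈ V) (y : Y) : ∃ n < V.index, y * (q s0 ^ n)⁻¹ ∈ V := by
  classical
  have h1 := quot_cyc hgen s0 hq (QuotientGroup.mk y)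
  rw [mem_zpowers_iff_mem_range_orderOf, Finset.mem_image] at h1
  obtain ⟨n, hn, h2⟩ := h1
  rw [Finset.mem_range, quot_ord hgen s0 hq] at hn
  refine ⟨n, hn, ?_⟩
  rw [← QuotientGroup.eq_one_iff, QuotientGroup.mk_mul, QuotientGroup.mk_inv, mul_inv_eq_one, ← h2]
  rfl

end Pool.Agent.Lib.MP_688fd0_co.SQ7.H17
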