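import Pool.Agent.Lib.MP_688fd0_co.SQ7.H17.Assign
import Pool.Agent.Lib.MP_688fd0_co.SQ7.Iface

/-!
Type C2, B1-FULL, row COLS (helper17): the columns of ASSIGN (`N ≠ 1`) as elements of the group.
-/

set_option autoImplicit false

namespace Pool.Agent.Lib.MP_688fd0_co.SQ7.H17

open Pool.Agent.Lib.MP_688fd0_co.SQ7.H25

variable {G : Type} [Group G]

/-- The left factor of a twist. -/
def twf (S : Lets G) (y : G) : Option Lt → G
  | none => 1
  | some s => y * S.al s.1 * (S.al (!s.1))⁻¹ * y⁻¹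

theorem Vst.w_eq (S : Lets G) (v : Vst G) : v.w S = twf S v.y v.tw := by
  cases h : v.tw <;> simp [Vst.w, twf, h]

section lev

variable {S : Lets G} {Γ T : Subgroup G} {L : ℕ} {lv : G → ℕ}

theorem lv_mul (c : Circ S Γ T L lv) (gen : T = Subgroup.closure (Set.range S.sv)) {τ : G} (hτ : τ ∈ T) {x : G}
    (hx : x ∈ Γ) : ((lv (x * τ) : ℕ) : ZMod L) = lv x + ((lv τ : ZMod L) - lv 1) := by
  have key : ∀ τ ∈ T, ∃ k : ZMod L, ∀ x ∈ Γ, ((lv (x * τ) : ℕ) : ZMod L) = lv x + k := by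
    intro τ hτ
    have hle := c.le
    rw [gen] at hτ hle
    induction hτ using Subgroup.closure_induction with
    | mem x hx =>
      obtain ⟨s, rfl⟩ := hx
      refine ⟨1, fun x hx => ?_⟩
      rw [c.step x hx s, ZMod.natCast_mod]
      push_cast
      rfl
    | one => exact ⟨0, fun x _ => by simp⟩
    | mul a b ha hb iha ihb =>
      obtain ⟨k, hk⟩ := iha
      obtain ⟨k', hk'⟩ := ihb
      exact ⟨k + k', fun x hx => by rw [← mul_assoc, hk' _ (Γ.mul_mem hx (hle ha)), hk x hx, add_assoc]⟩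
    | inv a ha ih =>
      obtain ⟨k, hk⟩ := ih
      refine ⟨-k, fun x hx => ?_⟩
      have h1 := hk (x * a⁻¹) (Γ.mul_mem hx (Γ.inv_mem (hle ha)))
      rw [inv_mul_cancel_right] at h1
      rw [h1]
      ring
  obtain ⟨k, hk⟩ := key τ hτ
  have h1 := hk 1 Γ.one_mem
  rw [one_mul] at h1
  rw [hk x hx, h1]
  ring

/-- The level of an element of `T`. -/
noncomputable def lvh (c : Circ S Γ T L lv) (gen : T = Subgroup.closure (Set.range S.sv)) : T →* Multiplicative (ZMod L) where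
  toFun τ := Multiplicative.ofAdd ((lv τ : ZMod L) - lv 1)
  map_one' := by simp
  map_mul' a b := by
    rw [← ofAdd_add]
    congr 1
    rw [Subgroup.coe_mul, lv_mul c gen b.2 (c.le a.2)]
    ring

theorem mem_ker_lvh (c : Circ S Γ T L lv) (gen : T = Subgroup.closure (Set.range S.sv)) (τ : T) :
    τ ∈ (lvh c gen).ker ↔ lv τ = lv 1 := by
  rw [MonoidHom.mem_ker]
  show Multiplicative.ofAdd ((lv τ : ZMod L) - lv 1) = 1 ↔ _
  rw [ofAdd_eq_one, sub_eq_zero, ZMod.natCast_eq_natCast_iff', Nat.mod_eq_of_lt (c.lt _), Nat.mod_eq_of_lt (c.lt _)]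

theorem lv_ker (c : Circ S Γ T L lv) (gen : T = Subgroup.closure (Set.range S.sv)) {τ : T}
    (hτ : τ ∈ (lvh c gen).ker) {x : G} (hx : x ∈ Γ) : lv (x * τ) = lv x := by
  rw [mem_ker_lvh] at hτ
  have h1 := lv_mul c gen τ.2 hx
  rw [hτ, sub_self, add_zero, ZMod.natCast_eq_natCast_iff', Nat.mod_eq_of_lt (c.lt _), Nat.mod_eq_of_lt (c.lt _)] at h1
  exact h1

theorem lvh_sv (c : Circ S Γ T L lv) (gen : T = Subgroup.closure (Set.range S.sv)) (s : Lt) :
    lvh c gen ⟨S.sv s, c.mem s⟩ = Multiplicative.ofAdd 1 := by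
  show Multiplicative.ofAdd ((lv (S.sv s) : ZMod L) - lv 1) = _
  congr 1
  have h1 := c.step 1 Γ.one_mem s
  rw [one_mul] at h1
  rw [h1, ZMod.natCast_mod]
  push_cast
  ring

theorem lvh_surj (c : Circ S Γ T L lv) (gen : T = Subgroup.closure (Set.range S.sv)) :
    Function.Surjective (lvh c gen) := by
  have : NeZero L := ⟨c.pos.ne'⟩
  intro z
  refine ⟨⟨S.sv (false, false), c.mem _⟩ ^ (Multiplicative.toAdd z).val, ?_⟩
  rw [map_pow, lvh_sv, ← ofAdd_nsmul, nsmul_eq_mul, mul_one, ZMod.natCast_val, ZMod.cast_id', id_eq, ofAdd_toAdd]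

theorem card_T [Finite G] (c : Circ S Γ T L lv) (gen : T = Subgroup.closure (Set.range S.sv)) :
    Nat.card T = Nat.card (lvh c gen).ker * L := by
  rw [Subgroup.card_eq_card_quotient_mul_card_subgroup (lvh c gen).ker, mul_comm]
  congr 1
  have h1 := Nat.card_congr (QuotientGroup.quotientKerEquivOfSurjective (lvh c gen) (lvh_surj c gen)).toEquiv
  rw [h1, Nat.card_congr Multiplicative.toAdd, Nat.card_zmod]

/-- A point of level `0` in every coset. -/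
theorem exists_base (c : Circ S Γ T L lv) {x : G} (hx : x ∈ Γ) : ∃ z ∈ Γ, lv z = 0 ∧ z⁻¹ * x ∈ T := by
  have key : ∀ k : ℕ, lv (x * S.sv (false, false) ^ k) = (lv x + k) % L := by
    intro k
    induction k with
    | zero => rw [pow_zero, mul_one, add_zero, Nat.mod_eq_of_lt (c.lt x)]
    | succ k ih =>
      rw [pow_succ, ← mul_assoc, c.step _ (Γ.mul_mem hx (Γ.pow_mem (c.le (c.mem _)) k)), ih, Nat.mod_add_mod, add_assoc]
  refine ⟨x * S.sv (false, false) ^ (L - lv x), Γ.mul_mem hx (Γ.pow_mem (c.le (c.mem _)) _), ?_, ?_⟩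
  · rw [key]
    have := c.lt x
    rw [show lv x + (L - lv x) = L by omega, Nat.mod_self]
  · rw [mul_inv_rev, inv_mul_cancel_right]
    exact T.inv_mem (T.pow_mem (c.mem _) _)

end lev

section quo

variable {S : Lets G} {Γ T : Subgroup G} {L : ℕ} {lv : G → ℕ} {Nv : Subgroup G} {l₁ D : ℕ}

theorem nv_normal (hw : Wrd S Γ T L lv Nv l₁ D) : (Nv.subgroupOf T).Normal := by
  constructor
  intro x hx g
  rw [Subgroup.mem_subgroupOf] at hx ⊢
  have h1 := hw.cen g g.2 x hx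
  rw [Subgroup.coe_mul, Subgroup.coe_mul, h1, Subgroup.coe_inv, mul_inv_cancel_right]
  exact hx

/-- The letters modulo `Nv`. -/
def qq (hw : Wrd S Γ T L lv Nv l₁ D) (s : Lt) : T ⧸ Nv.subgroupOf T := QuotientGroup.mk ⟨S.sv s, hw.circ.mem s⟩

theorem prod_mem (hw : Wrd S Γ T L lv Nv l₁ D) (w : List Lt) : (w.map S.sv).prod ∈ T := by
  apply Subgroup.list_prod_mem
  intro x hx
  obtain ⟨s, _, rfl⟩ := List.mem_map.1 hx
  exact hw.circ.mem s

variable (hw : Wrd S Γ T L lv Nv l₁ D)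

theorem vl_qq [(Nv.subgroupOf T).Normal] (w : List Lt) :
    vl (qq hw) w = QuotientGroup.mk ⟨(w.map S.sv).prod, prod_mem hw w⟩ := by
  induction w with
  | nil => rfl
  | cons s w ih => rw [vl_cons, ih]; rfl

theorem mk_eq [(Nv.subgroupOf T).Normal] (x y : T) :
    (QuotientGroup.mk x : T ⧸ Nv.subgroupOf T) = QuotientGroup.mk y ↔ (x : G)⁻¹ * y ∈ Nv := by
  rw [QuotientGroup.eq, Subgroup.mem_subgroupOf]
  rfl

theorem wd_qq [(Nv.subgroupOf T).Normal] : Wd (qq hw) l₁ D := by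
  constructor
  · intro d hd hld
    obtain ⟨w, h1, h2⟩ := hw.cl d hd hld
    refine ⟨w, h1, ?_⟩
    rw [vl_qq hw, ← QuotientGroup.mk_one, mk_eq]
    simpa using Nv.inv_mem h2
  · intro s
    obtain ⟨w, h1, h2, h3⟩ := hw.inv s
    refine ⟨w, h1, h2, ?_⟩
    rw [eq_inv_iff_mul_eq_one]
    have h4 : qq hw s * vl (qq hw) w = 1 := by
      rw [vl_qq hw]
      show (QuotientGroup.mk (⟨S.sv s, hw.circ.mem s⟩ * ⟨(w.map S.sv).prod, prod_mem hw w⟩ : T) :
        T ⧸ Nv.subgroupOf T) = 1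
      rw [← QuotientGroup.mk_one, mk_eq]
      simpa using Nv.inv_mem h3
    exact mul_eq_one_comm.1 h4

/-- The columns modulo `Nv`. -/
noncomputable def VV [(Nv.subgroupOf T).Normal] (gen : T = Subgroup.closure (Set.range S.sv)) :
    Subgroup (T ⧸ Nv.subgroupOf T) := (lvh hw.circ gen).ker.map (QuotientGroup.mk' (Nv.subgroupOf T))

variable [(Nv.subgroupOf T).Normal] (gen : T = Subgroup.closure (Set.range S.sv))

instance VV_normal : (VV hw gen).Normal :=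
  Subgroup.Normal.map inferInstance _ (QuotientGroup.mk'_surjective _)

theorem mem_VV {x : T} (hx : lv x = lv 1) : (QuotientGroup.mk x : T ⧸ Nv.subgroupOf T) ∈ VV hw gen :=
  ⟨x, (mem_ker_lvh hw.circ gen x).2 hx, rfl⟩

include hw in
theorem mk_inj {x y : T} (hx : lv x = lv 1) (hy : lv y = lv 1)
    (h : (QuotientGroup.mk x : T ⧸ Nv.subgroupOf T) = QuotientGroup.mk y) : x = y := by
  rw [mk_eq] at h
  have h1 := hw.one x (hw.circ.le x.2) _ h (by rw [mul_inv_cancel_left, hx, hy])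
  rw [inv_mul_eq_one] at h1
  exact Subtype.ext h1

theorem quot_VV (s s' : Lt) : qq hw s * (qq hw s')⁻¹ ∈ VV hw gen := by
  refine ⟨⟨S.sv s, hw.circ.mem s⟩ * ⟨S.sv s', hw.circ.mem s'⟩⁻¹, ?_, rfl⟩
  show _ ∈ (lvh hw.circ gen).ker
  rw [MonoidHom.mem_ker, map_mul, map_inv, lvh_sv, lvh_sv, mul_inv_cancel]

include gen in
theorem gen_qq : Subgroup.closure (Set.range (qq hw)) = ⊤ := by
  have h1 : Subgroup.closure (Set.range fun s => (⟨S.sv s, hw.circ.mem s⟩ : T)) = ⊤ := by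
    rw [eq_top_iff]
    rintro ⟨x, hx⟩ _
    have h2 : ∀ x (hx : x ∈ Subgroup.closure (Set.range S.sv)) (hxT : x ∈ T),
        (⟨x, hxT⟩ : T) ∈ Subgroup.closure (Set.range fun s => (⟨S.sv s, hw.circ.mem s⟩ : T)) := by
      intro x hx
      induction hx using Subgroup.closure_induction with
      | mem x hx =>
        obtain ⟨s, rfl⟩ := hx
        intro _
        exact Subgroup.subset_closure ⟨s, rfl⟩
      | one => intro _; exact Subgroup.one_mem _
      | mul a b ha hb iha ihb =>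
        intro _
        rw [← gen] at ha hb
        exact Subgroup.mul_mem _ (iha ha) (ihb hb)
      | inv a ha ih =>
        intro _
        rw [← gen] at ha
        exact Subgroup.inv_mem _ (ih ha)
    exact h2 x (gen ▸ hx) hx
  have h3 : Set.range (qq hw) = (QuotientGroup.mk' (Nv.subgroupOf T)) '' Set.range fun s => (⟨S.sv s, hw.circ.mem s⟩ : T) := by
    rw [← Set.range_comp]
    rfl
  rw [h3, ← MonoidHom.map_closure, h1, ← MonoidHom.range_eq_map]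
  exact MonoidHom.range_eq_top.2 (QuotientGroup.mk'_surjective _)

theorem card_VV : Nat.card (VV hw gen) = Nat.card (lvh hw.circ gen).ker := by
  symm
  refine Nat.card_eq_of_bijective (fun x : (lvh hw.circ gen).ker => (⟨QuotientGroup.mk x.1, x.1, x.2, rfl⟩ : VV hw gen)) ⟨?_, ?_⟩
  · intro x y h
    have h1 : (QuotientGroup.mk x.1 : T ⧸ Nv.subgroupOf T) = QuotientGroup.mk y.1 := congrArg Subtype.val h
    exact Subtype.ext (mk_inj hw ((mem_ker_lvh hw.circ gen _).1 x.2) ((mem_ker_lvh hw.circ gen _).1 y.2) h1)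
  · rintro ⟨_, x, hx, rfl⟩
    exact ⟨⟨x, hx⟩, rfl⟩

theorem L_eq [Finite G] : L = (VV hw gen).index * Nat.card Nv := by
  have h1 := card_T hw.circ gen
  have h2 := Subgroup.card_eq_card_quotient_mul_card_subgroup (Nv.subgroupOf T)
  have h3 := (VV hw gen).card_mul_index
  have h4 : Nat.card (Nv.subgroupOf T) = Nat.card Nv := Nat.card_congr (Subgroup.subgroupOfEquivOfLe hw.le).toEquiv
  have h5 : 0 < Nat.card (lvh hw.circ gen).ker := Nat.card_pos
  rw [h4, ← h3, h1, card_VV, mul_assoc] at h2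
  exact Nat.eq_of_mul_eq_mul_left h5 h2

theorem dvd_l [Finite G] (hl : 0 < l₁) : (VV hw gen).index ∣ l₁ := by
  have H := wd_qq hw
  have key : ∀ d, D ≤ d → l₁ ∣ d → (VV hw gen).index ∣ d := by
    intro d h1 h2
    obtain ⟨w, h3, h4⟩ := H.one d h1 h2
    have h5 : ∀ w : List Lt, (QuotientGroup.mk (vl (qq hw) w) : (T ⧸ Nv.subgroupOf T) ⧸ VV hw gen) =
        (QuotientGroup.mk (qq hw (false, false))) ^ w.length := by
      intro w
      induction w with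
      | nil => simp
      | cons s w ih =>
        rw [vl_cons, QuotientGroup.mk_mul, ih, List.length_cons, pow_succ']
        congr 1
        rw [← mul_inv_eq_one, ← QuotientGroup.mk_inv, ← QuotientGroup.mk_mul]
        exact (QuotientGroup.eq_one_iff _).2 (quot_VV hw gen _ _)
    have h6 := h5 w
    rw [h4, h3, QuotientGroup.mk_one] at h6
    rw [← quot_ord (gen_qq hw gen) (false, false) (fun s => quot_VV hw gen s _)]
    exact orderOf_dvd_of_pow_eq_one h6.symm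
  have h0 : D ≤ D * l₁ := Nat.le_mul_of_pos_right D hl
  have h1 := key (D * l₁) h0 ⟨D, by ring⟩
  have h2 := key (D * l₁ + l₁) (by omega) ⟨D + 1, by ring⟩
  exact (Nat.dvd_add_right h1).1 h2

end quo

section main

variable {S : Lets G} {Γ T : Subgroup G} {L : ℕ} {lv : G → ℕ} {Nv : Subgroup G} {l₁ D : ℕ}
  (hw : Wrd S Γ T L lv Nv l₁ D) [(Nv.subgroupOf T).Normal] (gen : T = Subgroup.closure (Set.range S.sv))

theorem sh_word {B n : ℕ} {x : T} (h : Sh (qq hw) l₁ B (QuotientGroup.mk x) (n : ℤ)) :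
    ∃ wd : List Lt, wd.length ≤ B ∧ wd.length ≡ n [MOD l₁] ∧ ((wd.map S.sv).prod)⁻¹ * x ∈ Nv := by
  obtain ⟨wd, h1, h2, h3⟩ := h
  refine ⟨wd, h1, ?_, ?_⟩
  · rw [Nat.modEq_iff_dvd]
    exact h2
  · rw [vl_qq hw, mk_eq] at h3
    exact h3

theorem word_sh {B n : ℕ} {x : T} (h : ∃ wd : List Lt, wd.length ≤ B ∧ wd.length ≡ n [MOD l₁] ∧
    ((wd.map S.sv).prod)⁻¹ * x ∈ Nv) : Sh (qq hw) l₁ B (QuotientGroup.mk x) (n : ℤ) := by
  obtain ⟨wd, h1, h2, h3⟩ := h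
  refine ⟨wd, h1, (Nat.modEq_iff_dvd).1 h2, ?_⟩
  rw [vl_qq hw, mk_eq]
  exact h3

omit [(Nv.subgroupOf T).Normal] in
include hw in
theorem uu_mem (i : Bool) : S.al i * (S.al (!i))⁻¹ ∈ T := by
  have h1 := T.mul_mem (hw.circ.mem (i, false)) (T.inv_mem (hw.circ.mem (!i, false)))
  simpa [Lets.sv, mul_assoc] using h1

omit [(Nv.subgroupOf T).Normal] in
theorem uu_lev (i : Bool) : lvh hw.circ gen ⟨_, uu_mem hw i⟩ = 1 := by
  have h1 : (⟨S.al i * (S.al (!i))⁻¹, uu_mem hw i⟩ : T) =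
      ⟨S.sv (i, false), hw.circ.mem _⟩ * ⟨S.sv (!i, false), hw.circ.mem _⟩⁻¹ := by
    apply Subtype.ext
    simp [Lets.sv, mul_assoc]
  rw [h1, map_mul, map_inv, lvh_sv, lvh_sv, mul_inv_cancel]

omit [(Nv.subgroupOf T).Normal] in
include hw in
theorem uu_ne (i : Bool) : S.al i * (S.al (!i))⁻¹ ≠ 1 := by
  intro h
  rw [mul_inv_eq_one] at h
  cases i
  · exact hw.circ.ne h
  · exact hw.circ.ne h.symm

omit [(Nv.subgroupOf T).Normal] in
include hw in
theorem twf_mem {z y : G} (h : z⁻¹ * y ∈ T) (o : Option Lt) : z⁻¹ * twf S y o * z ∈ T := by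
  cases o with
  | none => simp [twf]
  | some s =>
    have h1 := T.mul_mem (T.mul_mem h (uu_mem hw s.1)) (T.inv_mem h)
    have h2 : z⁻¹ * y * (S.al s.1 * (S.al (!s.1))⁻¹) * (z⁻¹ * y)⁻¹ = z⁻¹ * twf S y (some s) * z := by
      simp only [twf]; group
    rwa [h2] at h1

omit [(Nv.subgroupOf T).Normal] in
theorem twf_lev {z y : G} (h : z⁻¹ * y ∈ T) (o : Option Lt) : lvh hw.circ gen ⟨_, twf_mem hw h o⟩ = 1 := by
  cases o with
  | none =>
    have h1 : (⟨z⁻¹ * twf S y none * z, twf_mem hw h none⟩ : T) = 1 := Subtype.ext (by simp [twf])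
    rw [h1, map_one]
  | some s =>
    have h1 : (⟨z⁻¹ * twf S y (some s) * z, twf_mem hw h (some s)⟩ : T) =
        ⟨z⁻¹ * y, h⟩ * ⟨_, uu_mem hw s.1⟩ * ⟨z⁻¹ * y, h⟩⁻¹ := by
      apply Subtype.ext
      simp only [twf, Subgroup.coe_mul, Subgroup.coe_inv]
      group
    rw [h1, map_mul, map_mul, uu_lev hw gen, mul_one, ← map_mul, mul_inv_cancel, map_one]

omit [(Nv.subgroupOf T).Normal] in
include hw in
theorem twf_congr {y y' : G} (h : y⁻¹ * y' ∈ Nv) (o : Option Lt) : twf S y' o = twf S y o := by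
  cases o with
  | none => rfl
  | some s =>
    have h1 := hw.cen _ (uu_mem hw s.1) _ h
    have h2 : y' = y * (y⁻¹ * y') := by group
    have h3 : twf S y' (some s) = y' * (S.al s.1 * (S.al (!s.1))⁻¹) * y'⁻¹ := by simp only [twf, mul_assoc]
    have h4 : twf S y (some s) = y * (S.al s.1 * (S.al (!s.1))⁻¹) * y⁻¹ := by simp only [twf, mul_assoc]
    rw [h3, h4, h2, mul_assoc y, ← h1]
    group

/-- The columns of the visits of the coset of `z`. -/
structure ColsAt (S : Lets G) (Γ T : Subgroup G) (lv : G → ℕ) (Nv Nz : Subgroup G) (l₁ B n : ℕ) {Φ : Type*}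
    (y : ℕ → G) (tw : ℕ → Option Lt) (fam : ℕ → Φ) (g : G) (l : ℕ) (z : G) (w : ℕ → ℕ) (ρ : Φ → ℕ → Bool → G) :
    Prop where
  wlt : ∀ t ≤ n, z⁻¹ * y t ∈ T → w t < l
  rz : ∀ t ≤ n, z⁻¹ * y t ∈ T → ∀ i b, z⁻¹ * ρ (fam t) i b ∈ T
  r0 : ∀ t ≤ n, z⁻¹ * y t ∈ T → ∀ i b, lv (ρ (fam t) i b) = 0
  rsucc : ∀ p i b, ρ p (i + 1) b = ρ p i b * g
  inj : ∀ t ≤ n, ∀ t' ≤ n, z⁻¹ * y t ∈ T → z⁻¹ * y t' ∈ T → ∀ i i', i < l → i' < l → ∀ b b',
    ρ (fam t) i b = ρ (fam t') i' b' → fam t = fam t' ∧ i = i' ∧ b = b'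
  word : ∀ t ≤ n, z⁻¹ * y t ∈ T → ∀ b, (b = true → tw t = none) → ∃ wd : List Lt, wd.length ≤ B ∧
    wd.length ≡ lv (y t) [MOD l₁] ∧ ((wd.map S.sv).prod)⁻¹ * ((ρ (fam t) (w t) b)⁻¹ * y t) ∈ Nv
  twr : ∀ t ≤ n, z⁻¹ * y t ∈ T → tw t ≠ none → ∀ i, twf S (y t) (tw t) * ρ (fam t) i false = ρ (fam t) i true
  cov : ∀ x ∈ Γ, lv x = 0 → ∀ t ≤ n, z⁻¹ * y t ∈ T → x⁻¹ * y t ∈ Nv ⊔ Nz → ∃ j : ℕ, x = ρ (fam t) 0 false * g ^ j

/-- The subgroup of the turns modulo `Nv`. -/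
def NY (T Nv Nz : Subgroup G) [(Nv.subgroupOf T).Normal] : Subgroup (T ⧸ Nv.subgroupOf T) :=
  (Nz.subgroupOf T).map (QuotientGroup.mk' (Nv.subgroupOf T))

open scoped Classical in
theorem per_coset [Finite G] {l : ℕ} (hl : 0 < l) (hl1 : l₁ = (VV hw gen).index * l) (hcop : (Nat.card Nv).Coprime l)
    {Nz : Subgroup G} (hz : ∀ x ∈ Nz, x ∈ T ∧ lv x = lv 1) {g : T} (hg0 : lv g = lv 1)
    (hg : Subgroup.zpowers (QuotientGroup.mk g : T ⧸ Nv.subgroupOf T) = NY T Nv Nz) {B1 : ℕ}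
    (hgs : Sh (qq hw) l₁ B1 (QuotientGroup.mk g) (L : ℤ)) {nF : ℕ}
    (hgP : 4 * l ^ 2 * nF + 2 * l < orderOf (QuotientGroup.mk g : T ⧸ Nv.subgroupOf T))
    (hge : ∀ (r : ℕ) (i : Bool), r < (VV hw gen).index → ∀ j, 0 < j → j < l →
      (QuotientGroup.mk g : T ⧸ Nv.subgroupOf T) ^ j ≠ qq hw (false, false) ^ r *
        QuotientGroup.mk ⟨_, uu_mem hw i⟩ * (qq hw (false, false) ^ r)⁻¹ ∧
      (QuotientGroup.mk g : T ⧸ Nv.subgroupOf T) ^ j ≠ (qq hw (false, false) ^ r *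
        QuotientGroup.mk ⟨_, uu_mem hw i⟩ * (qq hw (false, false) ^ r)⁻¹)⁻¹)
    {n : ℕ} {Φ : Type*} {y : ℕ → G} (tw : ℕ → Option Lt) (fam : ℕ → Φ)
    (hfam : ∀ t ≤ n, ∀ t' ≤ n, fam t = fam t' → (y t)⁻¹ * y t' ∈ Nv ∧ tw t = tw t')
    {z : G} (hzΓ : z ∈ Γ) (hz0 : lv z = 0)
    (hF : ((Finset.range (n + 1)).filter (fun t => z⁻¹ * y t ∈ T)).card ≤ nF) :
    ∃ (w : ℕ → ℕ) (ρ : Φ → ℕ → Bool → G),
      ColsAt S Γ T lv Nv Nz l₁ (2 * l * B1 * D + (B1 + (4 * l ^ 2 * nF * B1 * D + (VV hw gen).index))) n y tw fam g l z w ρ := by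
  set π : T →* T ⧸ Nv.subgroupOf T := QuotientGroup.mk' (Nv.subgroupOf T) with hπ
  have hπe : ∀ x : T, (QuotientGroup.mk x : T ⧸ Nv.subgroupOf T) = π x := fun _ => rfl
  have hNV : NY T Nv Nz ≤ VV hw gen := by
    rintro _ ⟨x, hx, rfl⟩
    exact mem_VV hw gen (hz x hx).2
  have hLe := L_eq hw gen
  rw [hπe] at hgP
  -- the families of this coset
  let F := {p : Φ // ∃ t, t ≤ n ∧ fam t = p ∧ z⁻¹ * y t ∈ T}
  have htt : ∀ p : F, ∃ t, t ≤ n ∧ fam t = p.1 ∧ z⁻¹ * y t ∈ T := fun p => p.2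
  choose tt httn httf httT using htt
  have hinjt : Function.Injective fun p : F => (⟨tt p, by
      rw [Finset.mem_filter, Finset.mem_range]
      exact ⟨by have := httn p; omega, httT p⟩⟩ : (Finset.range (n + 1)).filter (fun t => z⁻¹ * y t ∈ T)) := by
    intro p p' h
    have h1 : tt p = tt p' := congrArg Subtype.val h
    apply Subtype.ext
    rw [← httf p, h1, httf p']
  have : Finite F := Finite.of_injective _ hinjt
  have : Fintype F := Fintype.ofFinite F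
  have hcF : Fintype.card F ≤ nF := by
    refine le_trans ?_ hF
    have h1 := Fintype.card_le_of_injective _ hinjt
    rwa [Fintype.card_coe] at h1
  set yF : F → T ⧸ Nv.subgroupOf T := fun p => π ⟨z⁻¹ * y (tt p), httT p⟩ with hyF
  set wF : F → T ⧸ Nv.subgroupOf T := fun p => π ⟨_, twf_mem hw (httT p) (tw (tt p))⟩ with hwF
  have hwV : ∀ p, wF p ∈ VV hw gen := by
    intro p
    refine mem_VV hw gen ((mem_ker_lvh hw.circ gen _).1 ?_)
    exact twf_lev hw gen (httT p) (tw (tt p))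
  have hlevI := lev_index (gen_qq hw gen) (false, false) (fun s => quot_VV hw gen s (false, false))
  have hlevE := lev_exists (gen_qq hw gen) (false, false) (fun s => quot_VV hw gen s (false, false))
  obtain ⟨a, r, hA⟩ := assign_core (F := F) hcF (q := qq hw) (s0 := (false, false)) (D := D)
    (δ := (VV hw gen).index) (l := l) (L := Nat.card Nv) (B1 := B1) (by rw [← hl1]; exact wd_qq hw) hl hcop hNV hlevI yF
    wF (fun p => hlevE (yF p)) (g := π g) (by rw [← hl1, ← hLe]; exact hgs) hg hgP (by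
      intro p r hr hrV i hi hil
      have key : ∀ o : Option Lt, ∀ x : T ⧸ Nv.subgroupOf T, x = π ⟨_, twf_mem hw (httT p) o⟩ →
          (yF p * (qq hw (false, false) ^ r)⁻¹)⁻¹ * x * (yF p * (qq hw (false, false) ^ r)⁻¹) = 1 ∨
          ∃ i : Bool, (yF p * (qq hw (false, false) ^ r)⁻¹)⁻¹ * x * (yF p * (qq hw (false, false) ^ r)⁻¹) =
            qq hw (false, false) ^ r * π ⟨_, uu_mem hw i⟩ * (qq hw (false, false) ^ r)⁻¹ := by
        intro o x hx
        cases o with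
        | none =>
          left
          have h1 : (⟨z⁻¹ * twf S (y (tt p)) none * z, twf_mem hw (httT p) none⟩ : T) = 1 :=
            Subtype.ext (by simp [twf])
          rw [hx, h1, map_one, mul_one, inv_mul_cancel]
        | some s =>
          right
          refine ⟨s.1, ?_⟩
          have h1 : (⟨z⁻¹ * twf S (y (tt p)) (some s) * z, twf_mem hw (httT p) (some s)⟩ : T) =
              ⟨z⁻¹ * y (tt p), httT p⟩ * ⟨_, uu_mem hw s.1⟩ * ⟨z⁻¹ * y (tt p), httT p⟩⁻¹ := by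
            apply Subtype.ext
            simp only [twf, Subgroup.coe_mul, Subgroup.coe_inv]
            group
          rw [hx, h1, map_mul, map_mul, map_inv]
          show (yF p * _)⁻¹ * (yF p * _ * (yF p)⁻¹) * _ = _
          group
      rcases key (tw (tt p)) (wF p) rfl with h | ⟨i', h⟩
      · rw [h, inv_one, and_self]
        intro h2
        have h3 := orderOf_dvd_of_pow_eq_one h2
        have h4 := Nat.le_of_dvd hi h3
        omega
      · rw [h]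
        exact hge r i' hr i hi hil)
  -- the rails in `T`
  have hR : ∀ (p : F) (b : Bool), ∃ x : T, lv x = lv 1 ∧ π x = rail (π g) l a wF p b := by
    intro p b
    have h1 := hA.rail_mem hNV hwV p b 0
    rw [pow_zero, mul_one] at h1
    obtain ⟨x, hx, hx'⟩ := h1
    exact ⟨x, (mem_ker_lvh hw.circ gen x).1 hx, hx'⟩
  choose R hR0 hRπ using hR
  have hPex : ∀ t ≤ n, z⁻¹ * y t ∈ T → ∃ t', t' ≤ n ∧ fam t' = fam t ∧ z⁻¹ * y t' ∈ T := fun t ht h => ⟨t, ht, rfl, h⟩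
  set ρ : Φ → ℕ → Bool → G := fun p i b =>
    if h : (∃ t, t ≤ n ∧ fam t = p ∧ z⁻¹ * y t ∈ T) then z * (R ⟨p, h⟩ b : G) * (g : G) ^ i else (g : G) ^ i with hρ
  have hρe : ∀ t (ht : t ≤ n) (h : z⁻¹ * y t ∈ T) i b,
      ρ (fam t) i b = z * (R ⟨fam t, hPex t ht h⟩ b : G) * (g : G) ^ i := by
    intro t ht h i b
    simp only [hρ]
    rw [dif_pos (hPex t ht h)]
  have hyFe : ∀ t (ht : t ≤ n) (h : z⁻¹ * y t ∈ T), yF ⟨fam t, hPex t ht h⟩ = π ⟨z⁻¹ * y t, h⟩ := by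
    intro t ht h
    have h1 := (hfam _ (httn ⟨fam t, hPex t ht h⟩) t ht (httf ⟨fam t, hPex t ht h⟩)).1
    have h2 := (mk_eq (Nv := Nv) ⟨z⁻¹ * y (tt ⟨fam t, hPex t ht h⟩), httT ⟨fam t, hPex t ht h⟩⟩ ⟨z⁻¹ * y t, h⟩).2 (by
      simpa [mul_assoc] using h1)
    exact h2
  have hwFe : ∀ t (ht : t ≤ n) (h : z⁻¹ * y t ∈ T), wF ⟨fam t, hPex t ht h⟩ = π ⟨_, twf_mem hw h (tw t)⟩ := by
    intro t ht h
    have h1 := hfam _ (httn ⟨fam t, hPex t ht h⟩) t ht (httf ⟨fam t, hPex t ht h⟩)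
    simp only [hwF]
    congr 1
    apply Subtype.ext
    show z⁻¹ * twf S (y (tt ⟨fam t, hPex t ht h⟩)) (tw (tt ⟨fam t, hPex t ht h⟩)) * z = z⁻¹ * twf S (y t) (tw t) * z
    rw [h1.2, twf_congr hw h1.1]
  have hlevy : ∀ t (h : z⁻¹ * y t ∈ T), lvh hw.circ gen ⟨z⁻¹ * y t, h⟩ = Multiplicative.ofAdd ((lv (y t) : ZMod L)) := by
    intro t h
    show Multiplicative.ofAdd ((lv (z⁻¹ * y t) : ZMod L) - lv 1) = _
    congr 1
    have h1 := lv_mul hw.circ gen h hzΓ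
    rw [mul_inv_cancel_left, hz0] at h1
    rw [h1]
    push_cast
    ring
  have hlap : ∀ t (ht : t ≤ n) (h : z⁻¹ * y t ∈ T), ∃ i < l,
      (((VV hw gen).index * l : ℕ) : ℤ) ∣ r ⟨fam t, hPex t ht h⟩ - i * (((VV hw gen).index * Nat.card Nv : ℕ) : ℤ) - (lv (y t) : ℤ) := by
    intro t ht h
    refine hA.lap ⟨fam t, hPex t ht h⟩ (lv (y t) : ℤ) ?_
    rw [hyFe t ht h, zpow_natCast]
    refine ⟨⟨z⁻¹ * y t, h⟩ * (⟨S.sv (false, false), hw.circ.mem _⟩ ^ (lv (y t)))⁻¹, ?_, rfl⟩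
    show _ ∈ (lvh hw.circ gen).ker
    rw [MonoidHom.mem_ker, map_mul, map_inv, map_pow, lvh_sv, hlevy, ← ofAdd_nsmul, nsmul_eq_mul, mul_one, mul_inv_cancel]
  set w : ℕ → ℕ := fun t => if h : t ≤ n ∧ z⁻¹ * y t ∈ T then (hlap t h.1 h.2).choose else 0 with hwdef
  have hwe : ∀ t (ht : t ≤ n) (h : z⁻¹ * y t ∈ T), w t < l ∧
      (((VV hw gen).index * l : ℕ) : ℤ) ∣ r ⟨fam t, hPex t ht h⟩ - w t * (((VV hw gen).index * Nat.card Nv : ℕ) : ℤ) - (lv (y t) : ℤ) := by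
    intro t ht h
    have h1 : w t = (hlap t ht h).choose := by
      simp only [hwdef]
      rw [dif_pos ⟨ht, h⟩]
    rw [h1]
    exact (hlap t ht h).choose_spec
  have hgker : g ∈ (lvh hw.circ gen).ker := (mem_ker_lvh hw.circ gen g).2 hg0
  refine ⟨w, ρ, ?_⟩
  constructor
  · intro t ht h
    exact (hwe t ht h).1
  · intro t ht h i b
    rw [hρe t ht h, mul_assoc, inv_mul_cancel_left]
    exact T.mul_mem (R _ b).2 (T.pow_mem g.2 i)
  · intro t ht h i b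
    rw [hρe t ht h, mul_assoc]
    have h1 : R ⟨fam t, hPex t ht h⟩ b * g ^ i ∈ (lvh hw.circ gen).ker :=
      Subgroup.mul_mem _ ((mem_ker_lvh hw.circ gen _).2 (hR0 _ b)) (Subgroup.pow_mem _ hgker i)
    have h2 := lv_ker hw.circ gen h1 hzΓ
    rw [hz0] at h2
    exact h2
  · intro p i b
    simp only [hρ]
    split_ifs
    · rw [pow_succ, mul_assoc, mul_assoc, mul_assoc]
    · rw [pow_succ]
  · intro t ht t' ht' h h' i i' hi hi' b b' heq
    rw [hρe t ht h, hρe t' ht' h', mul_assoc, mul_assoc, mul_left_cancel_iff] at heq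
    have h1 : R ⟨fam t, hPex t ht h⟩ b * g ^ i = R ⟨fam t', hPex t' ht' h'⟩ b' * g ^ i' := Subtype.ext heq
    have h2 := congrArg π h1
    rw [map_mul, map_mul, map_pow, map_pow, hRπ, hRπ] at h2
    have h3 := hA.inj _ _ _ _ _ _ hi hi' h2
    exact ⟨congrArg Subtype.val h3.1, h3.2.2, h3.2.1⟩
  · intro t ht h b hb
    have hx : (ρ (fam t) (w t) b)⁻¹ * y t =
        (((R ⟨fam t, hPex t ht h⟩ b * g ^ w t)⁻¹ * ⟨z⁻¹ * y t, h⟩ : T) : G) := by
      rw [hρe t ht h]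
      push_cast
      group
    rw [hx]
    apply sh_word hw
    have hsha := hA.sha ⟨fam t, hPex t ht h⟩
    rw [← hl1] at hsha
    have hwt := hwe t ht h
    rw [← hl1, ← hLe] at hwt
    have hdvd := hA.dvd
    rw [← hl1, ← hLe] at hdvd
    obtain ⟨k, hk2, hkd, hkf⟩ : ∃ k : ℕ, k ≤ 2 * l ∧ (l₁ : ℤ) ∣ (lv (y t) : ℤ) - (-(k * (L : ℤ)) + r ⟨fam t, hPex t ht h⟩) ∧
        (QuotientGroup.mk ((R ⟨fam t, hPex t ht h⟩ b * g ^ w t)⁻¹ * ⟨z⁻¹ * y t, h⟩ : T) : T ⧸ Nv.subgroupOf T) =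
          ((π g) ^ k)⁻¹ * ((a ⟨fam t, hPex t ht h⟩)⁻¹ * yF ⟨fam t, hPex t ht h⟩) := by
      obtain ⟨h1, h2⟩ := hwt
      cases b with
      | false =>
        refine ⟨w t, by omega, ?_, ?_⟩
        · obtain ⟨c, hc⟩ := h2
          refine ⟨-c, ?_⟩
          linear_combination -hc
        · rw [hπe, map_mul, map_inv, map_mul, map_pow, hRπ, ← hyFe t ht h]
          simp only [rail, Bool.false_eq_true, if_false]
          group
      | true =>
        have h4 : wF ⟨fam t, hPex t ht h⟩ = 1 := by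
          rw [hwFe t ht h]
          have h5 : (⟨z⁻¹ * twf S (y t) (tw t) * z, twf_mem hw h (tw t)⟩ : T) = 1 := by
            apply Subtype.ext
            show z⁻¹ * twf S (y t) (tw t) * z = 1
            rw [hb rfl]
            simp [twf]
          rw [h5, map_one]
        refine ⟨w t + l, by omega, ?_, ?_⟩
        · obtain ⟨c, hc⟩ := h2
          obtain ⟨d, hd⟩ := hdvd
          have hd' : (l : ℤ) * L = l₁ * d := by exact_mod_cast hd
          refine ⟨d - c, ?_⟩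
          push_cast
          linear_combination -hc + hd'
        · rw [hπe, map_mul, map_inv, map_mul, map_pow, hRπ, ← hyFe t ht h]
          simp only [rail, if_true, h4]
          rw [pow_add]
          group
    have h1 := ((sh_pow hgs k).inv (wd_qq hw)).mul hsha
    rw [hkf]
    refine (h1.mono ?_).congr hkd
    have h3 : k * B1 * D ≤ 2 * l * B1 * D := Nat.mul_le_mul_right _ (Nat.mul_le_mul_right _ hk2)
    omega
  · intro t ht h ho i
    have h1 : R ⟨fam t, hPex t ht h⟩ true = ⟨_, twf_mem hw h (tw t)⟩ * R ⟨fam t, hPex t ht h⟩ false := by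
      apply mk_inj hw (hR0 _ _)
      · exact (mem_ker_lvh hw.circ gen _).1 (Subgroup.mul_mem _ (MonoidHom.mem_ker.2 (twf_lev hw gen h (tw t)))
          ((mem_ker_lvh hw.circ gen _).2 (hR0 _ _)))
      · rw [hπe, hπe, map_mul, hRπ, hRπ]
        have h4 : wF ⟨fam t, hPex t ht h⟩ ≠ 1 := by
          rw [hwFe t ht h]
          intro h5
          have h6 := mk_inj hw ((mem_ker_lvh hw.circ gen _).1 (MonoidHom.mem_ker.2 (twf_lev hw gen h (tw t)))) (y := 1) rfl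
            (h5.trans (map_one π).symm)
          have h7 : z⁻¹ * twf S (y t) (tw t) * z = 1 := congrArg Subtype.val h6
          have h8 : twf S (y t) (tw t) = 1 := by
            have h9 : z * (z⁻¹ * twf S (y t) (tw t) * z) * z⁻¹ = z * 1 * z⁻¹ := by rw [h7]
            simpa [mul_assoc] using h9
          cases h10 : tw t with
          | none => exact ho h10
          | some s =>
            rw [h10] at h8
            simp only [twf] at h8
            apply uu_ne hw s.1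
            have h9 : (y t)⁻¹ * (y t * S.al s.1 * (S.al (!s.1))⁻¹ * (y t)⁻¹) * y t = (y t)⁻¹ * 1 * y t := by rw [h8]
            simpa [mul_assoc] using h9
        simp only [rail, Bool.false_eq_true, if_false, if_true, h4]
        rw [hwFe t ht h]
    rw [hρe t ht h, hρe t ht h, h1]
    push_cast
    group
  · intro x hx hx0 t ht h hxt
    have hsub : ∀ v ∈ Nv ⊔ Nz, ∃ u : T, π u ∈ NY T Nv Nz ∧ (u : G) = v := by
      have h1 : Nv ⊔ Nz ≤ ((NY T Nv Nz).comap π).map T.subtype := by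
        rw [sup_le_iff]
        constructor
        · intro v hv
          refine ⟨⟨v, hw.le hv⟩, ?_, rfl⟩
          show π _ ∈ NY T Nv Nz
          have h2 : π ⟨v, hw.le hv⟩ = 1 := (QuotientGroup.eq_one_iff _).2 hv
          rw [h2]
          exact Subgroup.one_mem _
        · intro v hv
          exact ⟨⟨v, (hz v hv).1⟩, ⟨⟨v, (hz v hv).1⟩, hv, rfl⟩, rfl⟩
      intro v hv
      obtain ⟨u, hu1, hu2⟩ := h1 hv
      exact ⟨u, hu1, hu2⟩
    obtain ⟨u, hu1, hu2⟩ := hsub _ hxt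
    have hzx : z⁻¹ * x ∈ T := by
      have h1 := T.mul_mem h (T.inv_mem u.2)
      rw [hu2] at h1
      have h2 : z⁻¹ * y t * (x⁻¹ * y t)⁻¹ = z⁻¹ * x := by group
      rwa [h2] at h1
    have hzx0 : lv (⟨z⁻¹ * x, hzx⟩ : T) = lv 1 := by
      have h1 := lv_mul hw.circ gen hzx hzΓ
      rw [mul_inv_cancel_left, hx0, hz0] at h1
      have h2 : ((lv (z⁻¹ * x) : ℕ) : ZMod L) = lv 1 := by
        have h3 : ((0 : ℕ) : ZMod L) = ((0 : ℕ) : ZMod L) + ((lv (z⁻¹ * x) : ZMod L) - lv 1) := h1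
        have h4 : (lv (z⁻¹ * x) : ZMod L) - lv 1 = 0 := by
          have := h3.symm
          rwa [add_eq_left] at this
        exact sub_eq_zero.1 h4
      rw [ZMod.natCast_eq_natCast_iff', Nat.mod_eq_of_lt (hw.circ.lt _), Nat.mod_eq_of_lt (hw.circ.lt _)] at h2
      exact h2
    rw [← hg, hπe] at hu1
    obtain ⟨m, hm⟩ := hu1
    have hm' : (π g) ^ m = π u := hm
    have hyx : yF ⟨fam t, hPex t ht h⟩ = π ⟨z⁻¹ * x, hzx⟩ * π u := by
      rw [hyFe t ht h, ← map_mul]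
      congr 1
      apply Subtype.ext
      rw [Subgroup.coe_mul, hu2]
      group
    have hyV : yF ⟨fam t, hPex t ht h⟩ ∈ VV hw gen := by
      rw [hyx]
      refine Subgroup.mul_mem _ (mem_VV hw gen hzx0) ?_
      rw [← hm']
      exact Subgroup.zpow_mem _ (mem_VV hw gen hg0) m
    obtain ⟨j, hj⟩ := hA.cov _ hyV
    have hRe : R ⟨fam t, hPex t ht h⟩ false = ⟨z⁻¹ * x, hzx⟩ * g ^ (m + j) := by
      apply mk_inj hw (hR0 _ _)
      · refine (mem_ker_lvh hw.circ gen _).1 (Subgroup.mul_mem _ ((mem_ker_lvh hw.circ gen _).2 hzx0) ?_)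
        exact Subgroup.zpow_mem _ hgker _
      · rw [hπe, hπe, map_mul, map_zpow, hRπ]
        simp only [rail, Bool.false_eq_true, if_false]
        rw [hj, hyx, ← hm', zpow_add, zpow_natCast, mul_assoc]
    have hfin : (g : G) ^ (-(m + (j : ℤ))) ∈ Submonoid.powers (g : G) := by
      rw [mem_powers_iff_mem_zpowers]
      exact ⟨_, rfl⟩
    obtain ⟨k, hk⟩ := hfin
    refine ⟨k, ?_⟩
    have hk' : (g : G) ^ k = (g : G) ^ (-(m + (j : ℤ))) := hk
    rw [hρe t ht h, hRe, hk']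
    push_cast
    group

end main

section final

/-- The columns of all visits: turn `g`, `l` laps, lap `w t` of the visit `t`, rails `ρ p i b` (`b = false`: the column
`a g ^ i`, `b = true`: the second column). -/
structure Cols (S : Lets G) (Γ T : Subgroup G) (L : ℕ) (lv : G → ℕ) (Nv Nz : Subgroup G) (l₁ B n : ℕ) {Φ : Type*}
    (y : ℕ → G) (tw : ℕ → Option Lt) (fam : ℕ → Φ) (g : G) (l : ℕ) (w : ℕ → ℕ) (ρ : Φ → ℕ → Bool → G) : Prop where
  gen : Subgroup.zpowers g = Nz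
  gT : g ∈ T ∧ ∀ x ∈ Γ, lv x = 0 → lv (x * g) = 0
  gword : ∃ wd : List Lt, wd.length ≤ B ∧ wd.length ≡ L [MOD l₁] ∧ ((wd.map S.sv).prod)⁻¹ * g ∈ Nv
  lpos : 0 < l
  lle : l ≤ l₁
  wlt : ∀ t ≤ n, w t < l
  rT : ∀ t ≤ n, ∀ i b, (ρ (fam t) i b)⁻¹ * y t ∈ T
  r0 : ∀ t ≤ n, ∀ i b, lv (ρ (fam t) i b) = 0
  rsucc : ∀ p i b, ρ p (i + 1) b = ρ p i b * g
  inj : ∀ t ≤ n, ∀ t' ≤ n, ∀ i i', i < l → i' < l → ∀ b b',
    ρ (fam t) i b = ρ (fam t') i' b' → fam t = fam t' ∧ i = i' ∧ b = b'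
  word : ∀ t ≤ n, ∀ b, (b = true → tw t = none) → ∃ wd : List Lt, wd.length ≤ B ∧ wd.length ≡ lv (y t) [MOD l₁] ∧
    ((wd.map S.sv).prod)⁻¹ * ((ρ (fam t) (w t) b)⁻¹ * y t) ∈ Nv
  twr : ∀ t ≤ n, tw t ≠ none → ∀ i, twf S (y t) (tw t) * ρ (fam t) i false = ρ (fam t) i true
  cov : ∀ x ∈ Γ, lv x = 0 → ∀ t ≤ n, x⁻¹ * y t ∈ Nv ⊔ Nz → ∃ j : ℕ, x = ρ (fam t) 0 false * g ^ j

/-- The bound for the words. -/
def colB (l₁ D B0 nF : ℕ) : ℕ := (1 + 4 * l₁ ^ 2) * B0 * (1 + 2 * l₁ * D + 4 * l₁ ^ 2 * nF * D) + l₁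

open scoped Classical in
/-- Row COLS. -/
theorem exists_cols [Finite G] {S : Lets G} {Γ T : Subgroup G} {L : ℕ} {lv : G → ℕ} {Nv : Subgroup G} {l₁ D : ℕ}
    (hw : Wrd S Γ T L lv Nv l₁ D) (gen : T = Subgroup.closure (Set.range S.sv)) (hl₁ : 0 < l₁)
    {Nz : Subgroup G} (hz : ∀ x ∈ Nz, x ∈ T ∧ lv x = lv 1) (hz1 : Nz ≠ ⊥) {g0 : G} (hg0 : Subgroup.zpowers g0 = Nz)
    {B0 : ℕ} (hw0 : ∃ wd : List Lt, wd.length ≤ B0 ∧ wd.length ≡ L [MOD l₁] ∧ ((wd.map S.sv).prod)⁻¹ * g0 ∈ Nv)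
    (hcop : (Nat.card Nv).Coprime l₁) {nF : ℕ}
    (hP : ∀ p, p.Prime → p ∣ Nat.card Nz → 1 + 4 * l₁ ^ 2 * (nF + 1) + 2 * l₁ < p)
    {n : ℕ} {Φ : Type*} {y : ℕ → G} (tw : ℕ → Option Lt) (fam : ℕ → Φ) (hy : ∀ t ≤ n, y t ∈ Γ)
    (hfam : ∀ t ≤ n, ∀ t' ≤ n, fam t = fam t' → (y t)⁻¹ * y t' ∈ Nv ∧ tw t = tw t')
    (hF : ∀ x ∈ Γ, ((Finset.range (n + 1)).filter (fun t => x⁻¹ * y t ∈ T)).card ≤ nF) :
    ∃ (g : G) (l : ℕ) (w : ℕ → ℕ) (ρ : Φ → ℕ → Bool → G),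
      Cols S Γ T L lv Nv Nz l₁ (colB l₁ D B0 nF) n y tw fam g l w ρ := by
  have := nv_normal hw
  set π : T →* T ⧸ Nv.subgroupOf T := QuotientGroup.mk' (Nv.subgroupOf T) with hπ
  have hπe : ∀ x : T, (QuotientGroup.mk x : T ⧸ Nv.subgroupOf T) = π x := fun _ => rfl
  obtain ⟨l, hl1⟩ := dvd_l hw gen hl₁
  have hl : 0 < l := Nat.pos_of_ne_zero (by rintro rfl; omega)
  have hδ : 0 < (VV hw gen).index := Nat.pos_of_ne_zero (by intro h; rw [h] at hl1; omega)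
  have hll : l ≤ l₁ := by rw [hl1]; exact Nat.le_mul_of_pos_left l hδ
  have hdl : (VV hw gen).index ≤ l₁ := Nat.le_of_dvd hl₁ (dvd_l hw gen hl₁)
  have hcop' : (Nat.card Nv).Coprime l := hcop.coprime_dvd_right ⟨_, hl1.trans (mul_comm _ _)⟩
  have hg0z : g0 ∈ Nz := by rw [← hg0]; exact Subgroup.mem_zpowers g0
  -- the turn
  have hN : Subgroup.zpowers (π ⟨g0, (hz g0 hg0z).1⟩) = NY T Nv Nz := by
    apply le_antisymm
    · rw [Subgroup.zpowers_le]
      exact ⟨⟨g0, (hz g0 hg0z).1⟩, hg0z, rfl⟩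
    · rintro _ ⟨x, hx, rfl⟩
      have hx' : (x : G) ∈ Subgroup.zpowers g0 := by rw [hg0]; exact hx
      obtain ⟨k, hk⟩ := hx'
      refine ⟨k, ?_⟩
      show π ⟨g0, _⟩ ^ k = π x
      rw [← map_zpow]
      congr 1
      apply Subtype.ext
      rw [Subgroup.coe_zpow]
      exact hk
  have hcardz : Nat.card (NY T Nv Nz) ∣ Nat.card Nz := by
    have h1 : Nat.card (Nz.subgroupOf T) = Nat.card Nz :=
      Nat.card_congr (Subgroup.subgroupOfEquivOfLe (fun x hx => (hz x hx).1)).toEquiv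
    rw [← h1]
    exact Subgroup.card_dvd_of_surjective
      (((QuotientGroup.mk' (Nv.subgroupOf T)).subgroupMap (Nz.subgroupOf T)))
      (MonoidHom.subgroupMap_surjective _ _)
  have hN1 : NY T Nv Nz ≠ ⊥ := by
    intro h
    apply hz1
    rw [eq_bot_iff]
    intro x hx
    have h1 : π ⟨x, (hz x hx).1⟩ ∈ NY T Nv Nz := ⟨⟨x, (hz x hx).1⟩, hx, rfl⟩
    rw [h, Subgroup.mem_bot] at h1
    have h2 := mk_inj hw (x := ⟨x, (hz x hx).1⟩) (y := 1) (hz x hx).2 rfl (h1.trans (map_one π).symm)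
    exact congrArg Subtype.val h2
  have hB1 : (1 + l₁ * (2 * l * Fintype.card (Fin (VV hw gen).index × Bool))) = 1 + 4 * l₁ ^ 2 := by
    rw [Fintype.card_prod, Fintype.card_fin, Fintype.card_bool]
    have : l₁ * (2 * l * ((VV hw gen).index * 2)) = 4 * (l₁ * ((VV hw gen).index * l)) := by ring
    rw [this, ← hl1]
    ring
  obtain ⟨gY, hgN, hgs, hge⟩ := exists_gen (E := Fin (VV hw gen).index × Bool) hl₁ hl
    (word_sh hw (x := ⟨g0, (hz g0 hg0z).1⟩) hw0) hN hN1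
    (fun e => qq hw (false, false) ^ (e.1 : ℕ) * π ⟨_, uu_mem hw e.2⟩ * (qq hw (false, false) ^ (e.1 : ℕ))⁻¹) (by
      intro p hp hpd
      have h1 := hP p hp (hpd.trans hcardz)
      rw [hB1]
      have h2 : 4 * l₁ ^ 2 ≤ 4 * l₁ ^ 2 * (nF + 1) := Nat.le_mul_of_pos_right _ (by omega)
      omega)
  rw [hB1] at hgs
  obtain ⟨g, hgz, rfl⟩ : gY ∈ NY T Nv Nz := by rw [← hgN]; exact Subgroup.mem_zpowers gY
  have hgz' : (g : G) ∈ Nz := hgz
  have hg1 : lv g = lv 1 := (hz _ hgz').2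
  have hgP : 4 * l ^ 2 * nF + 2 * l < orderOf (π g) := by
    have h1 : Nat.card (NY T Nv Nz) = orderOf (π g) := by rw [← hgN, Nat.card_zpowers]
    have h2 : orderOf (π g) ≠ 1 := by
      intro h
      rw [orderOf_eq_one_iff] at h
      apply hN1
      rw [← hgN]
      show Subgroup.zpowers (π g) = ⊥
      rw [h, Subgroup.zpowers_one_eq_bot]
    obtain ⟨p, hp, hpd⟩ := Nat.exists_prime_and_dvd h2
    have h3 := hP p hp ((by rw [h1]; exact hpd : p ∣ Nat.card (NY T Nv Nz)).trans hcardz)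
    have h4 := Nat.le_of_dvd (orderOf_pos (π g)) hpd
    have h5 : 4 * l ^ 2 * nF ≤ 4 * l₁ ^ 2 * (nF + 1) := by gcongr; omega
    omega
  -- base points
  have hbase : ∀ X : G ⧸ T, ∃ z : G, (∃ x ∈ Γ, (QuotientGroup.mk x : G ⧸ T) = X) →
      z ∈ Γ ∧ lv z = 0 ∧ (QuotientGroup.mk z : G ⧸ T) = X := by
    intro X
    by_cases h : ∃ x ∈ Γ, (QuotientGroup.mk x : G ⧸ T) = X
    · obtain ⟨x, hx, rfl⟩ := h
      obtain ⟨z, h1, h2, h3⟩ := exists_base hw.circ hx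
      exact ⟨z, fun _ => ⟨h1, h2, QuotientGroup.eq.2 h3⟩⟩
    · exact ⟨1, fun h' => absurd h' h⟩
  choose f hf using hbase
  have hper : ∀ X : G ⧸ T, ∃ (w : ℕ → ℕ) (ρ : Φ → ℕ → Bool → G), (∃ x ∈ Γ, (QuotientGroup.mk x : G ⧸ T) = X) →
      ColsAt S Γ T lv Nv Nz l₁ (2 * l * ((1 + 4 * l₁ ^ 2) * B0) * D + ((1 + 4 * l₁ ^ 2) * B0 +
        (4 * l ^ 2 * nF * ((1 + 4 * l₁ ^ 2) * B0) * D + (VV hw gen).index))) n y tw fam g l (f X) w ρ := by
    intro X
    by_cases h : ∃ x ∈ Γ, (QuotientGroup.mk x : G ⧸ T) = X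
    · obtain ⟨h1, h2, h3⟩ := hf X h
      obtain ⟨w, ρ, h4⟩ := per_coset hw gen hl hl1 hcop' hz hg1 hgN hgs hgP
        (fun r i hr j hj hjl => hge (⟨r, hr⟩, i) j hj hjl) tw fam hfam h1 h2 (hF _ h1)
      exact ⟨w, ρ, fun _ => h4⟩
    · exact ⟨fun _ => 0, fun _ _ _ => 1, fun h' => absurd h' h⟩
  choose w ρ hC using hper
  have hX : ∀ t ≤ n, ∃ x ∈ Γ, (QuotientGroup.mk x : G ⧸ T) = QuotientGroup.mk (y t) := fun t ht => ⟨y t, hy t ht, rfl⟩
  have hfT : ∀ t ≤ n, (f (QuotientGroup.mk (y t)))⁻¹ * y t ∈ T := fun t ht => QuotientGroup.eq.1 (hf _ (hX t ht)).2.2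
  have hgker : g ∈ (lvh hw.circ gen).ker := (mem_ker_lvh hw.circ gen g).2 hg1
  have hB : 2 * l * ((1 + 4 * l₁ ^ 2) * B0) * D + ((1 + 4 * l₁ ^ 2) * B0 +
      (4 * l ^ 2 * nF * ((1 + 4 * l₁ ^ 2) * B0) * D + (VV hw gen).index)) ≤ colB l₁ D B0 nF := by
    have h1 : 2 * l * ((1 + 4 * l₁ ^ 2) * B0) * D ≤ 2 * l₁ * ((1 + 4 * l₁ ^ 2) * B0) * D := by gcongr
    have h2 : 4 * l ^ 2 * nF * ((1 + 4 * l₁ ^ 2) * B0) * D ≤ 4 * l₁ ^ 2 * nF * ((1 + 4 * l₁ ^ 2) * B0) * D := by gcongr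
    have h3 : colB l₁ D B0 nF = 2 * l₁ * ((1 + 4 * l₁ ^ 2) * B0) * D + ((1 + 4 * l₁ ^ 2) * B0 +
      (4 * l₁ ^ 2 * nF * ((1 + 4 * l₁ ^ 2) * B0) * D + l₁)) := by rw [colB]; ring
    omega
  have hB1' : (1 + 4 * l₁ ^ 2) * B0 ≤ colB l₁ D B0 nF := by omega
  set W : ℕ → ℕ := fun t => w (QuotientGroup.mk (y t)) t with hW
  set P : Φ → ℕ → Bool → G := fun p i b =>
    if h : ∃ t, t ≤ n ∧ fam t = p then ρ (QuotientGroup.mk (y h.choose)) p i b else (g : G) ^ i with hPdef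
  have hPe : ∀ t ≤ n, ∀ i b, P (fam t) i b = ρ (QuotientGroup.mk (y t)) (fam t) i b := by
    intro t ht i b
    have h : ∃ t', t' ≤ n ∧ fam t' = fam t := ⟨t, ht, rfl⟩
    simp only [hPdef]
    rw [dif_pos h]
    have h1 := (hfam _ h.choose_spec.1 t ht h.choose_spec.2).1
    have h2 : (QuotientGroup.mk (y h.choose) : G ⧸ T) = QuotientGroup.mk (y t) := QuotientGroup.eq.2 (hw.le h1)
    rw [h2]
  refine ⟨g, l, W, P, ?_⟩
  constructor
  · apply le_antisymm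
    · rw [Subgroup.zpowers_le]
      exact hgz'
    · intro x hx
      have h1 : π ⟨x, (hz x hx).1⟩ ∈ NY T Nv Nz := ⟨⟨x, (hz x hx).1⟩, hx, rfl⟩
      rw [← hgN] at h1
      obtain ⟨k, hk⟩ := h1
      have hk' : π (g ^ k) = π ⟨x, (hz x hx).1⟩ := by rw [map_zpow]; exact hk
      have h2 := mk_inj hw (x := g ^ k) (y := ⟨x, (hz x hx).1⟩)
        ((mem_ker_lvh hw.circ gen _).1 (Subgroup.zpow_mem _ hgker k)) (hz x hx).2 hk'
      refine ⟨k, ?_⟩
      have h3 := congrArg Subtype.val h2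
      rw [Subgroup.coe_zpow] at h3
      exact h3
  · exact ⟨g.2, fun x hx hx0 => by rw [lv_ker hw.circ gen hgker hx, hx0]⟩
  · exact sh_word hw (hgs.mono hB1')
  · exact hl
  · exact hll
  · intro t ht
    exact (hC _ (hX t ht)).wlt t ht (hfT t ht)
  · intro t ht i b
    rw [hPe t ht]
    have h1 := T.mul_mem (T.inv_mem ((hC _ (hX t ht)).rz t ht (hfT t ht) i b)) (hfT t ht)
    have h2 : ((f (QuotientGroup.mk (y t)))⁻¹ * ρ (QuotientGroup.mk (y t)) (fam t) i b)⁻¹ *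
        ((f (QuotientGroup.mk (y t)))⁻¹ * y t) = (ρ (QuotientGroup.mk (y t)) (fam t) i b)⁻¹ * y t := by group
    rwa [h2] at h1
  · intro t ht i b
    rw [hPe t ht]
    exact (hC _ (hX t ht)).r0 t ht (hfT t ht) i b
  · intro p i b
    simp only [hPdef]
    split_ifs with h
    · exact (hC _ (hX _ h.choose_spec.1)).rsucc p i b
    · rw [pow_succ]
  · intro t ht t' ht' i i' hi hi' b b' heq
    rw [hPe t ht, hPe t' ht'] at heq
    have h1 := (hC _ (hX t ht)).rz t ht (hfT t ht) i b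
    have h2 := (hC _ (hX t' ht')).rz t' ht' (hfT t' ht') i' b'
    rw [heq] at h1
    have h3 : (QuotientGroup.mk (y t) : G ⧸ T) = QuotientGroup.mk (y t') := by
      rw [← (hf _ (hX t ht)).2.2, ← (hf _ (hX t' ht')).2.2, QuotientGroup.eq]
      have h4 := T.mul_mem h1 (T.inv_mem h2)
      have h5 : (f (QuotientGroup.mk (y t)))⁻¹ * ρ (QuotientGroup.mk (y t')) (fam t') i' b' *
          ((f (QuotientGroup.mk (y t')))⁻¹ * ρ (QuotientGroup.mk (y t')) (fam t') i' b')⁻¹ =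
          (f (QuotientGroup.mk (y t)))⁻¹ * f (QuotientGroup.mk (y t')) := by group
      rwa [h5] at h4
    have h4 := hfT t' ht'
    rw [← h3] at heq h4
    exact (hC _ (hX t ht)).inj t ht t' ht' (hfT t ht) h4 i i' hi hi' b b' heq
  · intro t ht b hb
    obtain ⟨wd, h1, h2, h3⟩ := (hC _ (hX t ht)).word t ht (hfT t ht) b hb
    rw [hPe t ht]
    exact ⟨wd, h1.trans hB, h2, h3⟩
  · intro t ht ho i
    rw [hPe t ht, hPe t ht]
    exact (hC _ (hX t ht)).twr t ht (hfT t ht) ho i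
  · intro x hx hx0 t ht hxt
    rw [hPe t ht]
    exact (hC _ (hX t ht)).cov x hx hx0 t ht (hfT t ht) hxt

end final

end Pool.Agent.Lib.MP_688fd0_co.SQ7.H17
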